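import Mathlib
import Pool.Agent.Lib.MP_ec260d_ntB.CDefs

/-!
# Labels of pairs (class, prime) by primes, and weighted representations
-/

namespace Pool.Agent.Lib.MP_ec260d_ntD.LG

open Complex Set Filter Topology MeasureTheory Pool.Agent.Lib.MP_ec260d_ntB

noncomputable section

/-- the prime which is the label of the pair `(c, p)` -/
def lab (c p : ℕ) : ℕ := Nat.nth Nat.Prime (Nat.pair c p)

/-- the class of a label -/
def labc (q : ℕ) : ℕ := (Nat.unpair (Nat.primeCounting' q)).1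

/-- the prime of a label -/
def labp (q : ℕ) : ℕ := (Nat.unpair (Nat.primeCounting' q)).2

/-- the completely multiplicative weight: the label of `(c, p)` has weight `p` -/
def wtl (n : ℕ) : ℝ := n.factorization.prod (fun q k => (labp q : ℝ) ^ k)

/-- the part of `n` of class `c` -/
def cpt (c n : ℕ) : ℕ := n.factorization.prod (fun q k => if labc q = c then labp q ^ k else 1)

/-- `Rep` with the weights `wtl` in place of the numbers -/
def RepW (S : Finset ℕ) (H B : ℝ) (m : ℂ) (g : (ℕ → ℂ) → ℂ) : Prop :=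
  ∃ (ι : Type) (_ : Fintype ι) (a b : ι → ℕ) (c : ι → ℂ),
    (∀ i, a i ≠ 0 ∧ b i ≠ 0 ∧ wtl (a i) ≤ H ∧ wtl (b i) ≤ H ∧
      (a i).primeFactors ⊆ S ∧ (b i).primeFactors ⊆ S) ∧
    (∑ i, ‖c i‖ ≤ B) ∧
    (∑ i, if a i = b i then c i else 0) = m ∧
    ∀ z : ℕ → ℂ, (∀ p, ‖z p‖ = 1) →
      g z = ∑ i, c i * cm z (a i) * (starRingEnd ℂ) (cm z (b i))

/-- the character with slopes `Lam` -/
def zc (Lam : ℕ → ℝ) (t : ℝ) (q : ℕ) : ℂ :=
  cexp (-((t * (Lam (labc q) * Real.log (labp q)) : ℝ) : ℂ) * I)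

/-- the labels of the pairs in `C × P` -/
def LS (C P : Finset ℕ) : Finset ℕ := (C ×ˢ P).image (fun x => lab x.1 x.2)

end

theorem lab_prime (c p : ℕ) : (lab c p).Prime := Nat.prime_nth_prime _

theorem labc_lab (c p : ℕ) : labc (lab c p) = c := by
  unfold labc lab
  rw [Nat.primeCounting'_nth_eq, Nat.unpair_pair]

theorem labp_lab (c p : ℕ) : labp (lab c p) = p := by
  unfold labp lab
  rw [Nat.primeCounting'_nth_eq, Nat.unpair_pair]

theorem lab_inj {c p c' p' : ℕ} (h : lab c p = lab c' p') : c = c' ∧ p = p' := by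
  refine ⟨?_, ?_⟩
  · rw [← labc_lab c p, h, labc_lab]
  · rw [← labp_lab c p, h, labp_lab]

theorem lab_lab {q : ℕ} (hq : q.Prime) : lab (labc q) (labp q) = q := by
  unfold lab labc labp
  rw [Nat.pair_unpair]
  exact Nat.nth_count hq

theorem mem_LS {C P : Finset ℕ} {q : ℕ} : q ∈ LS C P ↔ q.Prime ∧ labc q ∈ C ∧ labp q ∈ P := by
  unfold LS
  rw [Finset.mem_image]
  constructor
  · rintro ⟨⟨c, p⟩, h, rfl⟩
    rw [Finset.mem_product] at h
    rw [labc_lab, labp_lab]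
    exact ⟨lab_prime _ _, h.1, h.2⟩
  · rintro ⟨h1, h2, h3⟩
    exact ⟨(labc q, labp q), Finset.mem_product.2 ⟨h2, h3⟩, lab_lab h1⟩

theorem sum_LS {M : Type*} [AddCommMonoid M] (C P : Finset ℕ) (f : ℕ → M) :
    ∑ q ∈ LS C P, f q = ∑ c ∈ C, ∑ p ∈ P, f (lab c p) := by
  unfold LS
  rw [Finset.sum_image, Finset.sum_product]
  rintro ⟨c, p⟩ _ ⟨c', p'⟩ _ h
  obtain ⟨h1, h2⟩ := lab_inj h
  simp only at h1 h2
  rw [h1, h2]

theorem LS_disj {C P P' : Finset ℕ} (h : Disjoint P P') : Disjoint (LS C P) (LS C P') := by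
  rw [Finset.disjoint_left]
  intro q h1 h2
  rw [mem_LS] at h1 h2
  exact Finset.disjoint_left.1 h h1.2.2 h2.2.2

theorem wtl_one : wtl 1 = 1 := by
  unfold wtl
  rw [Nat.factorization_one, Finsupp.prod_zero_index]

theorem wtl_prime {q : ℕ} (hq : q.Prime) : wtl q = labp q := by
  unfold wtl
  rw [hq.factorization]
  exact (Finsupp.prod_single_index (h := fun q k => (labp q : ℝ) ^ k) (pow_zero _)).trans (pow_one _)

theorem wtl_mul {m n : ℕ} (hm : m ≠ 0) (hn : n ≠ 0) : wtl (m * n) = wtl m * wtl n := by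
  unfold wtl
  rw [Nat.factorization_mul hm hn]
  exact Finsupp.prod_add_index' (fun _ => pow_zero _) (fun _ _ _ => pow_add _ _ _)

theorem wtl_nonneg (n : ℕ) : 0 ≤ wtl n := by
  unfold wtl Finsupp.prod
  exact Finset.prod_nonneg (fun q _ => pow_nonneg (Nat.cast_nonneg _) _)

/-- a weighted representation is a representation -/
theorem repW_rep {S : Finset ℕ} {H B : ℝ} {m : ℂ} {g : (ℕ → ℂ) → ℂ} (h : RepW S H B m g) :
    ∃ H' : ℝ, Rep S H' B m g := by
  obtain ⟨ι, hι, a, b, c, h1, h2, h3, h4⟩ := h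
  refine ⟨∑ i, ((a i : ℝ) + b i), ι, hι, a, b, c, ?_, h2, h3, h4⟩
  intro i
  obtain ⟨ha, hb, _, _, haS, hbS⟩ := h1 i
  have h5 : (a i : ℝ) + b i ≤ ∑ i, ((a i : ℝ) + b i) :=
    Finset.single_le_sum (f := fun i => (a i : ℝ) + b i) (fun j _ => by positivity) (Finset.mem_univ i)
  have h6 : (0 : ℝ) ≤ a i := Nat.cast_nonneg _
  have h7 : (0 : ℝ) ≤ b i := Nat.cast_nonneg _
  exact ⟨ha, hb, by linarith, by linarith, haS, hbS⟩

end Pool.Agent.Lib.MP_ec260d_ntD.LG
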