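import Mathlib
import Pool.Agent.Lib.MP_ec260d_ntD.L.LDefs

/-!
# The increments of the blocks at points with slopes, in terms of `TH`
-/

namespace Pool.Agent.Lib.MP_ec260d_ntD.LG

open Complex Set Filter Topology MeasureTheory Pool.Agent.Lib.MP_ec260d_ntB

noncomputable section

/-- the coefficient at the label `q` -/
def ud (W T : ℝ) {k : ℕ} (cl : Fin (k + 1) → ℕ) (al : Fin (k + 1) → ℝ) (ζ : Fin k → ℝ) (q : ℕ) : ℂ :=
  ((1 / Real.pi * (labp q : ℝ) ^ (-(1 / 2 + W / Real.log T)) : ℝ) : ℂ) *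
    ∑ i : Fin k, ((ζ i : ℝ) : ℂ) *
      ((if cl i.succ = labc q then zt (al i.succ) (labp q) else 0) -
        (if cl i.castSucc = labc q then zt (al i.castSucc) (labp q) else 0))

/-- the combination of the increments of the `j`-th block between the points `s i` -/
def Thd (δ W T : ℝ) {k : ℕ} (s : Fin (k + 1) → ℝ) (ζ : Fin k → ℝ) (j : ℕ) : ℝ :=
  ∑ i : Fin k, ζ i * (YB δ W T j (s i.succ) - YB δ W T j (s i.castSucc))

/-- the points at time `t` -/
def pt {k : ℕ} (cl : Fin (k + 1) → ℕ) (al : Fin (k + 1) → ℝ) (Lam : ℕ → ℝ) (t : ℝ) (i : Fin (k + 1)) : ℝ :=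
  al i + Lam (cl i) * t

/-- the variance -/
def Vd (δ W T : ℝ) {k : ℕ} (C : Finset ℕ) (cl : Fin (k + 1) → ℕ) (al : Fin (k + 1) → ℝ) (ζ : Fin k → ℝ) : ℝ :=
  ∑ j ∈ Finset.range (JJ T), ∑ q ∈ LS C (Pr δ T j), ‖ud W T cl al ζ q‖ ^ 2

/-- product of the truncated exponentials of the blocks -/
def Gd (δ W T : ℝ) {k : ℕ} (s : Fin (k + 1) → ℝ) (ζ : Fin k → ℝ) : ℂ :=
  ∏ j ∈ Finset.range (JJ T), ex (dd δ j) (((Thd δ W T s ζ j : ℝ) : ℂ) * I)

end

private theorem lth_zt_add (a b : ℝ) (p : ℕ) : zt (a + b) p = zt a p * zt b p := by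
  unfold zt
  rw [← Complex.exp_add]
  congr 1
  push_cast
  ring

private theorem lth_zt_norm (a : ℝ) (p : ℕ) : ‖zt a p‖ = 1 := by
  unfold zt
  rw [← Complex.ofReal_neg, Complex.norm_exp_ofReal_mul_I]

private theorem lth_pow (W T s : ℝ) {p : ℕ} (hp : p ≠ 0) :
    (p : ℂ) ^ (-(sW W T s)) = (((p : ℝ) ^ (-(1 / 2 + W / Real.log T)) : ℝ) : ℂ) * zt s p := by
  have hp0 : (p : ℂ) ≠ 0 := by exact_mod_cast hp
  have h1 : -(sW W T s) = ((-(1 / 2 + W / Real.log T) : ℝ) : ℂ) + (-(s * I)) := by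
    unfold sW
    push_cast
    ring
  rw [h1, Complex.cpow_add _ _ hp0]
  congr 1
  · rw [Complex.ofReal_cpow (Nat.cast_nonneg p), Complex.ofReal_natCast]
  · rw [Complex.cpow_def_of_ne_zero hp0, ← Complex.natCast_log]
    unfold zt
    congr 1
    push_cast
    ring

private theorem lth_YB (δ W T : ℝ) (j : ℕ) (s : ℝ) :
    YB δ W T j s = (1 / Real.pi) *
      (∑ p ∈ Pr δ T j, (((p : ℝ) ^ (-(1 / 2 + W / Real.log T)) : ℝ) : ℂ) * zt s p).im := by
  unfold YB Pj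
  congr 2
  refine Finset.sum_congr rfl fun p hp => ?_
  have h1 : p ≠ 0 := by
    unfold Pr at hp
    rw [Finset.mem_filter] at hp
    exact hp.2.1.ne_zero
  exact lth_pow W T s h1

private theorem lth_zc (Lam : ℕ → ℝ) (t : ℝ) (c p : ℕ) : zc Lam t (lab c p) = zt (Lam c * t) p := by
  unfold zc zt
  rw [labc_lab, labp_lab]
  congr 3
  ring_nf

theorem thd_eq (δ W T : ℝ) {k : ℕ} {C : Finset ℕ} {cl : Fin (k + 1) → ℕ} (hC : ∀ i, cl i ∈ C)
    (al : Fin (k + 1) → ℝ) (Lam : ℕ → ℝ) (ζ : Fin k → ℝ) (j : ℕ) (t : ℝ) :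
    Thd δ W T (pt cl al Lam t) ζ j = TH (LS C (Pr δ T j)) (ud W T cl al ζ) (zc Lam t) := by
  have h1 : ∑ q ∈ LS C (Pr δ T j), ud W T cl al ζ q * zc Lam t q =
      ∑ i : Fin k, ((ζ i * (1 / Real.pi) : ℝ) : ℂ) *
      ((∑ p ∈ Pr δ T j, (((p : ℝ) ^ (-(1 / 2 + W / Real.log T)) : ℝ) : ℂ) *
          zt (pt cl al Lam t i.succ) p) -
        ∑ p ∈ Pr δ T j, (((p : ℝ) ^ (-(1 / 2 + W / Real.log T)) : ℝ) : ℂ) *
          zt (pt cl al Lam t i.castSucc) p) := by
    rw [sum_LS, Finset.sum_comm]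
    have h2 : ∀ p, ∑ c ∈ C, ud W T cl al ζ (lab c p) * zc Lam t (lab c p) =
        ∑ i : Fin k, ((ζ i * (1 / Real.pi) : ℝ) : ℂ) *
        ((((p : ℝ) ^ (-(1 / 2 + W / Real.log T)) : ℝ) : ℂ) * zt (pt cl al Lam t i.succ) p -
        (((p : ℝ) ^ (-(1 / 2 + W / Real.log T)) : ℝ) : ℂ) * zt (pt cl al Lam t i.castSucc) p) := by
      intro p
      have h3 : ∀ c ∈ C, ud W T cl al ζ (lab c p) * zc Lam t (lab c p) =
          ∑ i : Fin k, ((ζ i * (1 / Real.pi) : ℝ) : ℂ) *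
          ((((p : ℝ) ^ (-(1 / 2 + W / Real.log T)) : ℝ) : ℂ) *
            (if cl i.succ = c then zt (al i.succ) p * zt (Lam c * t) p else 0) -
          (((p : ℝ) ^ (-(1 / 2 + W / Real.log T)) : ℝ) : ℂ) *
            (if cl i.castSucc = c then zt (al i.castSucc) p * zt (Lam c * t) p else 0)) := by
        intro c _
        unfold ud
        rw [lth_zc, labc_lab, labp_lab, Finset.mul_sum, Finset.sum_mul]
        refine Finset.sum_congr rfl fun i _ => ?_
        rw [Complex.ofReal_mul, Complex.ofReal_mul]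
        split_ifs
        · ring
        · ring
        · ring
        · ring
      rw [Finset.sum_congr rfl h3, Finset.sum_comm]
      refine Finset.sum_congr rfl fun i _ => ?_
      rw [← Finset.mul_sum, Finset.sum_sub_distrib, ← Finset.mul_sum, ← Finset.mul_sum, Finset.sum_ite_eq,
        Finset.sum_ite_eq, if_pos (hC _), if_pos (hC _), ← lth_zt_add, ← lth_zt_add]
      rfl
    rw [Finset.sum_congr rfl fun p _ => h2 p, Finset.sum_comm]
    refine Finset.sum_congr rfl fun i _ => ?_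
    rw [← Finset.sum_sub_distrib, Finset.mul_sum]
  unfold Thd TH
  rw [h1, Complex.im_sum]
  refine Finset.sum_congr rfl fun i _ => ?_
  rw [Complex.im_ofReal_mul, Complex.sub_im, lth_YB, lth_YB]
  ring

theorem ud_sub (W T : ℝ) {k : ℕ} (cl : Fin (k + 1) → ℕ) (al : Fin (k + 1) → ℝ) (ζ ζ' : Fin k → ℝ) (q : ℕ) :
    ud W T cl al ζ q - ud W T cl al ζ' q = ud W T cl al (fun i => ζ i - ζ' i) q := by
  unfold ud
  rw [← mul_sub, ← Finset.sum_sub_distrib]
  congr 1
  refine Finset.sum_congr rfl fun i _ => ?_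
  rw [Complex.ofReal_sub]
  ring

theorem ud_norm_le {W T : ℝ} (hW : 0 ≤ W) (hT : 1 < T) {k : ℕ} (cl : Fin (k + 1) → ℕ)
    (al : Fin (k + 1) → ℝ) (ζ : Fin k → ℝ) {c : ℝ}
    (hζ : ∀ i, |ζ i| ≤ c) {q : ℕ} (hp : 1 ≤ labp q) :
    ‖ud W T cl al ζ q‖ ≤ c * k * (labp q : ℝ) ^ (-(1 / 2) : ℝ) := by
  have hp1 : (1 : ℝ) ≤ labp q := by exact_mod_cast hp
  have hlog : 0 < Real.log T := Real.log_pos hT
  have ha : (labp q : ℝ) ^ (-(1 / 2 + W / Real.log T)) ≤ (labp q : ℝ) ^ (-(1 / 2) : ℝ) := by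
    refine Real.rpow_le_rpow_of_exponent_le hp1 ?_
    have h1 : 0 ≤ W / Real.log T := div_nonneg hW hlog.le
    linarith
  have ha0 : 0 ≤ (labp q : ℝ) ^ (-(1 / 2 + W / Real.log T)) := Real.rpow_nonneg (by linarith) _
  have hone : ∀ (i : Fin (k + 1)), ‖(if cl i = labc q then zt (al i) (labp q) else 0 : ℂ)‖ ≤ 1 := by
    intro i
    split_ifs
    · rw [lth_zt_norm]
    · rw [norm_zero]
      exact zero_le_one
  have hs : ‖∑ i : Fin k, ((ζ i : ℝ) : ℂ) *
      ((if cl i.succ = labc q then zt (al i.succ) (labp q) else 0) -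
        (if cl i.castSucc = labc q then zt (al i.castSucc) (labp q) else 0))‖ ≤ k * (c * 2) := by
    refine (norm_sum_le _ _).trans ?_
    have h1 : ∀ i ∈ (Finset.univ : Finset (Fin k)), ‖((ζ i : ℝ) : ℂ) *
        ((if cl i.succ = labc q then zt (al i.succ) (labp q) else 0) -
          (if cl i.castSucc = labc q then zt (al i.castSucc) (labp q) else 0))‖ ≤ c * 2 := by
      intro i _
      rw [norm_mul, Complex.norm_real, Real.norm_eq_abs]
      have h2 : ‖(if cl i.succ = labc q then zt (al i.succ) (labp q) else 0 : ℂ) -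
          (if cl i.castSucc = labc q then zt (al i.castSucc) (labp q) else 0)‖ ≤ 2 := by
        refine (norm_sub_le _ _).trans ?_
        have h3 := hone i.succ
        have h4 := hone i.castSucc
        linarith
      exact mul_le_mul (hζ i) h2 (norm_nonneg _) ((abs_nonneg _).trans (hζ i))
    refine (Finset.sum_le_sum h1).trans ?_
    rw [Finset.sum_const, Finset.card_univ, Fintype.card_fin, nsmul_eq_mul]
  have hck : 0 ≤ c * k := by
    rcases Nat.eq_zero_or_pos k with h | h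
    · rw [h, Nat.cast_zero, mul_zero]
    · have h1 : 0 ≤ c := (abs_nonneg _).trans (hζ ⟨0, h⟩)
      positivity
  unfold ud
  rw [norm_mul, Complex.norm_real, Real.norm_eq_abs, abs_mul, abs_of_nonneg ha0,
    abs_of_nonneg (by positivity : (0 : ℝ) ≤ 1 / Real.pi)]
  have hpi : 1 / Real.pi ≤ 1 / 2 := by
    refine one_div_le_one_div_of_le (by norm_num) ?_
    linarith [Real.pi_gt_three]
  have h3 : 1 / Real.pi * (labp q : ℝ) ^ (-(1 / 2 + W / Real.log T)) ≤
      1 / 2 * (labp q : ℝ) ^ (-(1 / 2) : ℝ) :=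
    mul_le_mul hpi ha ha0 (by norm_num)
  have h4 : 0 ≤ 1 / 2 * (labp q : ℝ) ^ (-(1 / 2) : ℝ) := by positivity
  refine (mul_le_mul h3 hs (norm_nonneg _) h4).trans (le_of_eq ?_)
  ring

theorem gd_continuous (δ W T : ℝ) {k : ℕ} (cl : Fin (k + 1) → ℕ) (al : Fin (k + 1) → ℝ) (Lam : ℕ → ℝ)
    (K : ℝ) :
    Continuous (fun q : (Fin k → ℝ) × ℝ => Gd δ W T (pt cl al Lam q.2) (fun i => q.1 i / K)) := by
  have h1 : ∀ j, Continuous (fun q : (Fin k → ℝ) × ℝ =>
      Thd δ W T (pt cl al Lam q.2) (fun i => q.1 i / K) j) := by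
    intro j
    have h2 : (fun q : (Fin k → ℝ) × ℝ => Thd δ W T (pt cl al Lam q.2) (fun i => q.1 i / K) j) =
        fun q => TH (LS (Finset.univ.image cl) (Pr δ T j)) (ud W T cl al (fun i => q.1 i / K))
          (zc Lam q.2) := by
      funext q
      exact thd_eq δ W T (fun i => Finset.mem_image_of_mem cl (Finset.mem_univ i)) al Lam _ j q.2
    rw [h2]
    unfold TH ud zc
    refine Complex.continuous_im.comp (continuous_finsetSum _ fun p _ => ?_)
    fun_prop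
  unfold Gd
  refine continuous_finsetProd _ fun j _ => ?_
  unfold ex
  refine continuous_finsetSum _ fun r _ => ?_
  have h3 := h1 j
  fun_prop

end Pool.Agent.Lib.MP_ec260d_ntD.LG
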