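import Mathlib
import Pool.Agent.Lib.MP_ec260d_ntB.CF
import Pool.Agent.Lib.MP_ec260d_ntD.L.LTh

/-!
# The detector is bounded below on the event (general points)
-/

namespace Pool.Agent.Lib.MP_ec260d_ntD.LG

open Complex Set Filter Topology MeasureTheory Pool.Agent.Lib.MP_ec260d_ntB

/-- the integrand of the detector -/
noncomputable def PhiD (δ W T : ℝ) {k : ℕ} (y : Fin k → ℝ) (K : ℝ) (ξ : Fin k → ℝ)
    (s : Fin (k + 1) → ℝ) : ℂ :=
  ((∏ i : Fin k, (1 - |ξ i|) : ℝ) : ℂ) *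
    cexp (-((∑ i : Fin k, ξ i * y i / K : ℝ) : ℂ) * I) * Gd δ W T s (fun i => ξ i / K)

private theorem lf_thj_le {k : ℕ} (δ W T : ℝ) (s : Fin (k + 1) → ℝ) (K : ℝ) (hK : 1 ≤ K)
    (h2 : ∀ j ∈ Finset.range (JJ T), ∀ i : Fin (k + 1),
      |YB δ W T j (s i)| ≤ dd δ j / (100 * ((k : ℝ) + 1)))
    (ξ : Fin k → ℝ) (hξ : ξ ∈ box k) (j : ℕ) (hj : j ∈ Finset.range (JJ T)) :
    |Thd δ W T s (fun i => ξ i / K) j| ≤ dd δ j / 50 := by
  have hk : (0 : ℝ) < (k : ℝ) + 1 := by positivity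
  have hd : (0 : ℝ) ≤ dd δ j / (100 * ((k : ℝ) + 1)) := by positivity
  have hone : ∀ i : Fin k, |ξ i / K * (YB δ W T j (s i.succ) -
      YB δ W T j (s i.castSucc))| ≤ 2 * (dd δ j / (100 * ((k : ℝ) + 1))) := by
    intro i
    have ha : |ξ i| ≤ 1 := abs_le.mpr (hξ i (Set.mem_univ i))
    have hb : |ξ i / K| ≤ 1 := by
      rw [abs_div, abs_of_nonneg (by linarith : (0 : ℝ) ≤ K)]
      rw [div_le_one (by linarith)]
      linarith
    have h3 := h2 j hj i.succ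
    have h4 := h2 j hj i.castSucc
    rw [abs_mul]
    have h5 : |YB δ W T j (s i.succ) - YB δ W T j (s i.castSucc)|
        ≤ 2 * (dd δ j / (100 * ((k : ℝ) + 1))) := by
      have h6 := abs_sub (YB δ W T j (s i.succ)) (YB δ W T j (s i.castSucc))
      linarith
    calc |ξ i / K| * |YB δ W T j (s i.succ) - YB δ W T j (s i.castSucc)|
        ≤ 1 * (2 * (dd δ j / (100 * ((k : ℝ) + 1)))) := by
          apply mul_le_mul hb h5 (abs_nonneg _) zero_le_one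
      _ = _ := one_mul _
  have hsum : |Thd δ W T s (fun i => ξ i / K) j|
      ≤ ∑ _i : Fin k, 2 * ((dd δ j : ℝ) / (100 * ((k : ℝ) + 1))) := by
    unfold Thd
    exact (Finset.abs_sum_le_sum_abs _ _).trans (Finset.sum_le_sum (fun i _ => hone i))
  refine hsum.trans ?_
  rw [Finset.sum_const, Finset.card_univ, Fintype.card_fin, nsmul_eq_mul]
  have hfrac : (k : ℝ) * (2 * ((dd δ j : ℝ) / (100 * ((k : ℝ) + 1)))) =
      ((dd δ j : ℝ) / 50) * ((k : ℝ) / ((k : ℝ) + 1)) := by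
    field_simp
    ring
  rw [hfrac]
  have h7 : (k : ℝ) / ((k : ℝ) + 1) ≤ 1 := by
    rw [div_le_one hk]; linarith
  have h8 : (0 : ℝ) ≤ (dd δ j : ℝ) / 50 := by positivity
  nlinarith

private theorem lf_sum_thj {k : ℕ} (δ W T : ℝ) (s : Fin (k + 1) → ℝ) (K : ℝ) (ξ : Fin k → ℝ) :
    ∑ j ∈ Finset.range (JJ T), Thd δ W T s (fun i => ξ i / K) j
      = ∑ i : Fin k, ξ i / K * ∑ j ∈ Finset.range (JJ T), (YB δ W T j (s i.succ) -
          YB δ W T j (s i.castSucc)) := by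
  unfold Thd
  rw [Finset.sum_comm]
  apply Finset.sum_congr rfl
  intro i _
  rw [Finset.mul_sum]

private theorem lf_contG {k : ℕ} (δ W T : ℝ) (s : Fin (k + 1) → ℝ) (K : ℝ) :
    Continuous (fun ξ : Fin k → ℝ => Gd δ W T s (fun i => ξ i / K)) := by
  unfold Gd
  refine continuous_finsetProd _ fun j _ => ?_
  unfold ex Thd
  refine continuous_finsetSum _ fun r _ => ?_
  fun_prop

private theorem lf_main (k : ℕ) (v : Fin k → ℝ) (hv : ∀ i, |v i| ≤ 1) :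
    (11 / 12 : ℝ) ^ k ≤ ‖∫ ξ in box k, ∏ i : Fin k, (((1 - |ξ i| : ℝ) : ℂ) *
      cexp (((ξ i * v i : ℝ) : ℂ) * I))‖ := by
  have h1 : (∫ ξ in box k, ∏ i : Fin k, (((1 - |ξ i| : ℝ) : ℂ) * cexp (((ξ i * v i : ℝ) : ℂ) * I)))
      = ∏ i : Fin k, ∫ x in Icc (-1 : ℝ) 1, ((1 - |x| : ℝ) : ℂ) * cexp (((x * v i : ℝ) : ℂ) * I) := by
    unfold box
    rw [volume_pi, Measure.restrict_pi_pi]
    exact integral_fintype_prod_eq_prod (𝕜 := ℂ)
      (fun (i : Fin k) (x : ℝ) => ((1 - |x| : ℝ) : ℂ) * cexp (((x * v i : ℝ) : ℂ) * I))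
  rw [h1, norm_prod]
  have h2 : ∏ _i : Fin k, (11 / 12 : ℝ) = (11 / 12 : ℝ) ^ k := by
    rw [Finset.prod_const, Finset.card_univ, Fintype.card_fin]
  rw [← h2]
  apply Finset.prod_le_prod
  · intro i _; norm_num
  · intro i _
    obtain ⟨r, hr, he⟩ := tri_int (v i) (hv i)
    rw [he, Complex.norm_real, Real.norm_eq_abs]
    exact hr.trans (le_abs_self r)

private theorem lf_box_compact (k : ℕ) : IsCompact (box k) := by
  unfold box
  exact isCompact_univ_pi (fun _ => isCompact_Icc)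

private theorem lf_box_vol (k : ℕ) : (volume : Measure (Fin k → ℝ)).real (box k) = 2 ^ k := by
  unfold box
  rw [Measure.real, volume_pi_pi]
  simp only [Real.volume_Icc, Finset.prod_const, Finset.card_univ, Fintype.card_fin]
  rw [ENNReal.toReal_pow, ENNReal.toReal_ofReal (by norm_num)]
  norm_num

private theorem lf_contA {k : ℕ} (y : Fin k → ℝ) (K : ℝ) :
    Continuous (fun ξ : Fin k → ℝ => ((∏ i : Fin k, (1 - |ξ i|) : ℝ) : ℂ) *
    cexp (-((∑ i : Fin k, ξ i * y i / K : ℝ) : ℂ) * I)) := by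
  refine Continuous.mul ?_ ?_
  · apply Complex.continuous_ofReal.comp
    fun_prop
  · apply Complex.continuous_exp.comp
    apply Continuous.mul _ continuous_const
    apply Continuous.neg
    apply Complex.continuous_ofReal.comp
    fun_prop

private theorem lf_contM {k : ℕ} (v : Fin k → ℝ) :
    Continuous (fun ξ : Fin k → ℝ => ∏ i : Fin k, (((1 - |ξ i| : ℝ) : ℂ) *
      cexp (((ξ i * v i : ℝ) : ℂ) * I))) := by
  apply continuous_finsetProd
  intro i _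
  apply Continuous.mul
  · apply Complex.continuous_ofReal.comp
    fun_prop
  · apply Complex.continuous_exp.comp
    apply Continuous.mul _ continuous_const
    apply Complex.continuous_ofReal.comp
    fun_prop

private theorem lf_comb {k : ℕ} (ξ y v D : Fin k → ℝ) (K S : ℝ) (hK : 0 < K)
    (hv : ∀ i, v i = (D i - y i) / K) (hS : S = ∑ i : Fin k, ξ i / K * D i) :
    ∏ i : Fin k, (((1 - |ξ i| : ℝ) : ℂ) * cexp (((ξ i * v i : ℝ) : ℂ) * I))
        = ((∏ i : Fin k, (1 - |ξ i|) : ℝ) : ℂ) * cexp (-((∑ i : Fin k, ξ i * y i / K : ℝ) : ℂ) * I) *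
          cexp ((S : ℂ) * I) := by
  have h1 : ∑ i : Fin k, ξ i * v i = -(∑ i : Fin k, ξ i * y i / K) + S := by
    rw [hS, ← Finset.sum_neg_distrib, ← Finset.sum_add_distrib]
    apply Finset.sum_congr rfl
    intro i _
    rw [hv i]
    field_simp
    ring
  have h2 : ∏ i : Fin k, cexp (((ξ i * v i : ℝ) : ℂ) * I)
      = cexp (-((∑ i : Fin k, ξ i * y i / K : ℝ) : ℂ) * I) * cexp ((S : ℂ) * I) := by
    rw [← Complex.exp_sum, ← Complex.exp_add, ← Finset.sum_mul, ← Complex.ofReal_sum, h1, ← add_mul]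
    push_cast
    rfl
  rw [Finset.prod_mul_distrib, h2, Complex.ofReal_prod, mul_assoc]

private theorem lf_wt {k : ℕ} (ξ y : Fin k → ℝ) (K : ℝ) (hξ : ξ ∈ box k) :
    ‖((∏ i : Fin k, (1 - |ξ i|) : ℝ) : ℂ) * cexp (-((∑ i : Fin k, ξ i * y i / K : ℝ) : ℂ) * I)‖ ≤ 1 := by
  rw [norm_mul, Complex.norm_real, ← Complex.ofReal_neg, Complex.norm_exp_ofReal_mul_I, mul_one,
    Real.norm_eq_abs, Finset.abs_prod]
  apply Finset.prod_le_one
  · intro i _; exact abs_nonneg _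
  · intro i _
    have ha : |ξ i| ≤ 1 := abs_le.mpr (hξ i (Set.mem_univ i))
    rw [abs_le]
    constructor <;> linarith [abs_nonneg (ξ i)]

private theorem lf_point {k : ℕ} (ξ y v D : Fin k → ℝ) (K S ε : ℝ) (G : ℂ) (hK : 0 < K)
    (hv : ∀ i, v i = (D i - y i) / K) (hS : S = ∑ i : Fin k, ξ i / K * D i) (hξ : ξ ∈ box k)
    (hG : ‖G - cexp ((S : ℂ) * I)‖ ≤ ε) :
    ‖((∏ i : Fin k, (1 - |ξ i|) : ℝ) : ℂ) * cexp (-((∑ i : Fin k, ξ i * y i / K : ℝ) : ℂ) * I) * G -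
      ∏ i : Fin k, (((1 - |ξ i| : ℝ) : ℂ) * cexp (((ξ i * v i : ℝ) : ℂ) * I))‖ ≤ ε := by
  rw [lf_comb ξ y v D K S hK hv hS, ← mul_sub, norm_mul]
  have hw := lf_wt ξ y K hξ
  calc _ ≤ 1 * ε := mul_le_mul hw hG (norm_nonneg _) zero_le_one
    _ = ε := one_mul _

private theorem lf_fin {k : ℕ} (F M : (Fin k → ℝ) → ℂ) (hF : Continuous F) (hM : Continuous M) (ε : ℝ)
    (h : ∀ ξ ∈ box k, ‖F ξ - M ξ‖ ≤ ε) (hM2 : (11 / 12 : ℝ) ^ k ≤ ‖∫ ξ in box k, M ξ‖)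
    (he : 2 ^ k * ε ≤ (11 / 12 : ℝ) ^ k / 2) :
    (11 / 12 : ℝ) ^ k / 2 ≤ ‖∫ ξ in box k, F ξ‖ := by
  have hFi := hF.continuousOn.integrableOn_compact (μ := volume) (lf_box_compact k)
  have hMi := hM.continuousOn.integrableOn_compact (μ := volume) (lf_box_compact k)
  have h3 : ‖(∫ ξ in box k, F ξ) - ∫ ξ in box k, M ξ‖ ≤ ε * 2 ^ k := by
    rw [← integral_sub hFi hMi, ← lf_box_vol k]
    exact norm_setIntegral_le_of_norm_le_const (lf_box_compact k).measure_lt_top h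
  have h4 := norm_sub_norm_le (∫ ξ in box k, M ξ) (∫ ξ in box k, F ξ)
  rw [norm_sub_rev] at h4
  nlinarith

theorem ffd_lower (k : ℕ) (δ W T : ℝ) (s : Fin (k + 1) → ℝ) (y : Fin k → ℝ) (K : ℝ) (hK : 1 ≤ K)
    (hs : 2 ^ (k + 1) * ∑ j ∈ Finset.range (JJ T), Real.exp (-(dd δ j : ℝ)) ≤ (11 / 12 : ℝ) ^ k / 2)
    (h1 : ∀ i : Fin k, |(∑ j ∈ Finset.range (JJ T), (YB δ W T j (s i.succ) -
      YB δ W T j (s i.castSucc))) - y i| ≤ K)
    (h2 : ∀ j ∈ Finset.range (JJ T), ∀ i : Fin (k + 1),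
      |YB δ W T j (s i)| ≤ dd δ j / (100 * ((k : ℝ) + 1))) :
    (11 / 12 : ℝ) ^ k / 2 ≤ ‖∫ ξ in box k, PhiD δ W T y K ξ s‖ := by
  have hK0 : (0 : ℝ) < K := by linarith
  have hS0 : (0 : ℝ) ≤ ∑ j ∈ Finset.range (JJ T), Real.exp (-(dd δ j : ℝ)) :=
    Finset.sum_nonneg (fun j _ => (Real.exp_pos _).le)
  have hS1 : ∑ j ∈ Finset.range (JJ T), Real.exp (-(dd δ j : ℝ)) ≤ 1 := by
    have ha : (11 / 12 : ℝ) ^ k ≤ 1 := pow_le_one₀ (by norm_num) (by norm_num)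
    have hb : (1 : ℝ) ≤ 2 ^ (k + 1) := one_le_pow₀ (by norm_num)
    nlinarith
  have hv1 : ∀ i : Fin k, |((∑ j ∈ Finset.range (JJ T), (YB δ W T j (s i.succ) -
      YB δ W T j (s i.castSucc))) - y i) / K| ≤ 1 := by
    intro i
    rw [abs_div, abs_of_pos hK0, div_le_one hK0]
    exact h1 i
  unfold PhiD
  refine lf_fin _ _ ((lf_contA y K).mul (lf_contG δ W T s K)) (lf_contM _)
    (2 * ∑ j ∈ Finset.range (JJ T), Real.exp (-(dd δ j : ℝ))) ?_ (lf_main k _ hv1) ?_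
  · intro ξ hξ
    exact lf_point ξ y _ (fun i : Fin k => ∑ j ∈ Finset.range (JJ T),
      (YB δ W T j (s i.succ) - YB δ W T j (s i.castSucc))) K
      (∑ j ∈ Finset.range (JJ T), Thd δ W T s (fun i => ξ i / K) j) _
      (Gd δ W T s (fun i => ξ i / K)) hK0 (fun i => rfl) (lf_sum_thj δ W T s K ξ) hξ
      (trunc_prod (Finset.range (JJ T)) (dd δ) (fun j => Thd δ W T s (fun i => ξ i / K) j)
      (fun j hj => lf_thj_le δ W T s K hK h2 ξ hξ j hj) hS1)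
  · calc _ = 2 ^ (k + 1) * ∑ j ∈ Finset.range (JJ T), Real.exp (-(dd δ j : ℝ)) := by ring
      _ ≤ _ := hs

end Pool.Agent.Lib.MP_ec260d_ntD.LG
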