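import Mathlib
import Pool.Agent.Lib.MP_ec260d_ntB.CInt
import Pool.Agent.Lib.MP_ec260d_ntD.L.LF

/-!
# Local density bound for the increments of the prime sums at points moving with slopes
-/

namespace Pool.Agent.Lib.MP_ec260d_ntD.LG

open Complex Set Filter Topology MeasureTheory Pool.Agent.Lib.MP_ec260d_ntB

private theorem lc_Phi_cont (δ W T : ℝ) {k : ℕ} (cl : Fin (k + 1) → ℕ) (al : Fin (k + 1) → ℝ)
    (Lam : ℕ → ℝ) (y : Fin k → ℝ) (K : ℝ) :
    Continuous (fun q : (Fin k → ℝ) × ℝ => PhiD δ W T y K q.1 (pt cl al Lam q.2)) := by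
  unfold PhiD
  refine Continuous.mul (Continuous.mul ?_ ?_) (gd_continuous δ W T cl al Lam K)
  · refine Complex.continuous_ofReal.comp ?_
    refine continuous_finsetProd _ (fun i _ => ?_)
    exact continuous_const.sub ((continuous_apply i).comp continuous_fst).abs
  · refine Complex.continuous_exp.comp ?_
    refine Continuous.mul ?_ continuous_const
    refine Continuous.neg ?_
    refine Complex.continuous_ofReal.comp ?_
    refine continuous_finsetSum _ (fun i _ => ?_)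
    exact (((continuous_apply i).comp continuous_fst).mul continuous_const).div_const _

private theorem lc_norm_phase (x : ℝ) : ‖cexp (-(x : ℂ) * I)‖ = 1 := by
  have : -(x : ℂ) * I = ((-x : ℝ) : ℂ) * I := by push_cast; ring
  rw [this, Complex.norm_exp_ofReal_mul_I]

private theorem lc_tri_le {k : ℕ} {ξ : Fin k → ℝ} (hξ : ξ ∈ box k) :
    ‖((∏ i : Fin k, (1 - |ξ i|) : ℝ) : ℂ)‖ ≤ 1 := by
  rw [Complex.norm_real, Real.norm_eq_abs, Finset.abs_prod]
  refine Finset.prod_le_one (fun i _ => abs_nonneg _) (fun i _ => ?_)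
  have h := hξ i (Set.mem_univ i)
  have h1 : |ξ i| ≤ 1 := abs_le.2 h
  rw [abs_of_nonneg (by linarith)]
  linarith [abs_nonneg (ξ i)]

private theorem lc_scale_le {k : ℕ} {ξ : Fin k → ℝ} (hξ : ξ ∈ box k) {K : ℝ} (hK : 1 ≤ K) (i : Fin k) :
    |ξ i / K| ≤ 1 := by
  have h := hξ i (Set.mem_univ i)
  have h1 : |ξ i| ≤ 1 := abs_le.2 h
  rw [abs_div, abs_of_pos (by linarith : (0:ℝ) < K), div_le_one (by linarith)]
  linarith

/-- the correlation of the integrands -/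
private theorem lc_corr {k : ℕ} {δ W T E : ℝ} {C : Finset ℕ} {cl : Fin (k + 1) → ℕ}
    {al : Fin (k + 1) → ℝ} {Lam : ℕ → ℝ} (y : Fin k → ℝ) {K : ℝ} (hK : 1 ≤ K) {a b Cc : ℝ}
    (hm : ∀ (ζ ζ' : Fin k → ℝ), (∀ i, |ζ i| ≤ 1) → (∀ i, |ζ' i| ≤ 1) →
        ‖∫ t in a..b, Gd δ W T (pt cl al Lam t) ζ * (starRingEnd ℂ) (Gd δ W T (pt cl al Lam t) ζ')‖ ≤
          (b - a) * (Cc * Real.exp (-(Vd δ W T C cl al (fun i => ζ i - ζ' i)) / 12)) + E)
    {ξ ξ' : Fin k → ℝ} (hξ : ξ ∈ box k) (hξ' : ξ' ∈ box k) :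
    ‖∫ t in a..b, PhiD δ W T y K ξ (pt cl al Lam t) *
        (starRingEnd ℂ) (PhiD δ W T y K ξ' (pt cl al Lam t))‖ ≤
      (b - a) * (Cc * Real.exp (-(Vd δ W T C cl al (fun i => ξ i / K - ξ' i / K)) / 12)) + E := by
  set A : ℂ := ((∏ i : Fin k, (1 - |ξ i|) : ℝ) : ℂ) * cexp (-((∑ i : Fin k, ξ i * y i / K : ℝ) : ℂ) * I)
    with hA
  set A' : ℂ := ((∏ i : Fin k, (1 - |ξ' i|) : ℝ) : ℂ) *
    cexp (-((∑ i : Fin k, ξ' i * y i / K : ℝ) : ℂ) * I) with hA'
  have e1 : ∀ t, PhiD δ W T y K ξ (pt cl al Lam t) * (starRingEnd ℂ) (PhiD δ W T y K ξ' (pt cl al Lam t)) =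
      (A * (starRingEnd ℂ) A') * (Gd δ W T (pt cl al Lam t) (fun i => ξ i / K) *
        (starRingEnd ℂ) (Gd δ W T (pt cl al Lam t) (fun i => ξ' i / K))) := by
    intro t
    have e2 : PhiD δ W T y K ξ (pt cl al Lam t) = A * Gd δ W T (pt cl al Lam t) (fun i => ξ i / K) := rfl
    have e3 : PhiD δ W T y K ξ' (pt cl al Lam t) = A' * Gd δ W T (pt cl al Lam t) (fun i => ξ' i / K) :=
      rfl
    rw [e2, e3, map_mul]
    ring
  simp_rw [e1]
  rw [intervalIntegral.integral_const_mul, norm_mul]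
  have hAn : ‖A‖ ≤ 1 := by
    rw [hA, norm_mul, lc_norm_phase, mul_one]
    exact lc_tri_le hξ
  have hAn' : ‖A'‖ ≤ 1 := by
    rw [hA', norm_mul, lc_norm_phase, mul_one]
    exact lc_tri_le hξ'
  have h1 : ‖A * (starRingEnd ℂ) A'‖ ≤ 1 := by
    rw [norm_mul, RCLike.norm_conj]
    exact mul_le_one₀ hAn (norm_nonneg _) hAn'
  have h2 := hm (fun i => ξ i / K) (fun i => ξ' i / K) (lc_scale_le hξ hK) (lc_scale_le hξ' hK)
  calc ‖A * (starRingEnd ℂ) A'‖ * ‖∫ t in a..b, Gd δ W T (pt cl al Lam t) (fun i => ξ i / K) *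
        (starRingEnd ℂ) (Gd δ W T (pt cl al Lam t) (fun i => ξ' i / K))‖
      ≤ 1 * ‖∫ t in a..b, Gd δ W T (pt cl al Lam t) (fun i => ξ i / K) *
        (starRingEnd ℂ) (Gd δ W T (pt cl al Lam t) (fun i => ξ' i / K))‖ :=
        mul_le_mul_of_nonneg_right h1 (norm_nonneg _)
    _ ≤ _ := by rw [one_mul]; exact h2

private theorem lc_fin (k : ℕ) : IsFiniteMeasure ((volume : Measure (Fin k → ℝ)).restrict (box k)) := by
  refine ⟨?_⟩
  rw [Measure.restrict_apply_univ, vol_box]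
  exact ENNReal.pow_lt_top (by simp)

private theorem lc_vol (k : ℕ) (c : ℝ) : (∫ _ξ in box k, c) = 2 ^ k * c := by
  rw [setIntegral_const, Measure.real, vol_box, smul_eq_mul]
  simp

/-- the double integral of the bound -/
private theorem lc_double {k : ℕ} (q : Fin k → ℝ) (hq : ∀ i, 0 < q i) {A B : ℝ} (hA : 0 ≤ A) :
    (∫ ξ in box k, ∫ ξ' in box k, (A * Real.exp (-(∑ i, (ξ i - ξ' i) ^ 2 * q i)) + B)) ≤
      A * (2 ^ k * ∏ i, Real.sqrt (Real.pi / q i)) + 4 ^ k * B := by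
  have := lc_fin k
  have hc : Continuous (fun z : (Fin k → ℝ) × (Fin k → ℝ) =>
      Real.exp (-(∑ i, (z.1 i - z.2 i) ^ 2 * q i))) := by
    refine Real.continuous_exp.comp (Continuous.neg ?_)
    refine continuous_finsetSum _ (fun i _ => ?_)
    exact ((((continuous_apply i).comp continuous_fst).sub
      ((continuous_apply i).comp continuous_snd)).pow 2).mul continuous_const
  have hb : ∀ z : (Fin k → ℝ) × (Fin k → ℝ),
      ‖Real.exp (-(∑ i, (z.1 i - z.2 i) ^ 2 * q i))‖ ≤ 1 := by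
    intro z
    rw [Real.norm_eq_abs, abs_of_pos (Real.exp_pos _), Real.exp_le_one_iff]
    have : 0 ≤ ∑ i, (z.1 i - z.2 i) ^ 2 * q i :=
      Finset.sum_nonneg (fun i _ => mul_nonneg (sq_nonneg _) (hq i).le)
    linarith
  have hI : Integrable (fun z : (Fin k → ℝ) × (Fin k → ℝ) =>
      Real.exp (-(∑ i, (z.1 i - z.2 i) ^ 2 * q i)))
      (((volume : Measure (Fin k → ℝ)).restrict (box k)).prod
        ((volume : Measure (Fin k → ℝ)).restrict (box k))) :=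
    Integrable.of_bound hc.aestronglyMeasurable 1 (ae_of_all _ hb)
  have hI2 := hI.integral_prod_left
  have h1 : ∀ ξ : Fin k → ℝ, (∫ ξ' in box k, (A * Real.exp (-(∑ i, (ξ i - ξ' i) ^ 2 * q i)) + B)) =
      A * (∫ ξ' in box k, Real.exp (-(∑ i, (ξ i - ξ' i) ^ 2 * q i))) + 2 ^ k * B := by
    intro ξ
    have hcξ : Continuous (fun ξ' : Fin k → ℝ => Real.exp (-(∑ i, (ξ i - ξ' i) ^ 2 * q i))) :=
      hc.comp (continuous_const.prodMk continuous_id)
    have hIξ : Integrable (fun ξ' : Fin k → ℝ => Real.exp (-(∑ i, (ξ i - ξ' i) ^ 2 * q i)))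
        ((volume : Measure (Fin k → ℝ)).restrict (box k)) :=
      Integrable.of_bound hcξ.aestronglyMeasurable 1 (ae_of_all _ (fun ξ' => hb (ξ, ξ')))
    rw [integral_add (hIξ.const_mul A) (integrable_const B), integral_const_mul, lc_vol]
  simp_rw [h1]
  rw [integral_add (hI2.const_mul A) (integrable_const _), integral_const_mul, lc_vol]
  have h4 : (4 : ℝ) ^ k * B = 2 ^ k * (2 ^ k * B) := by
    rw [← mul_assoc, ← mul_pow]; norm_num
  rw [h4]
  have h5 := mul_le_mul_of_nonneg_left (gauss_box q hq) hA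
  linarith

private theorem lc_prod {k : ℕ} {K c : ℝ} (hK : 1 ≤ K) (hc : 0 < c) (g : Fin k → ℝ) (hg : ∀ i, 0 < g i) :
    ∏ i : Fin k, Real.sqrt (Real.pi / (c * g i / (12 * K ^ 2))) =
      (Real.sqrt (12 * Real.pi / c)) ^ k * K ^ k * ∏ i : Fin k, (Real.sqrt (g i))⁻¹ := by
  have hK0 : (0 : ℝ) < K := by linarith
  have h1 : ∀ i : Fin k, Real.sqrt (Real.pi / (c * g i / (12 * K ^ 2))) =
      Real.sqrt (12 * Real.pi / c) * K * (Real.sqrt (g i))⁻¹ := by
    intro i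
    have e1 : Real.pi / (c * g i / (12 * K ^ 2)) =
        (12 * Real.pi / c) * (K ^ 2) * (g i)⁻¹ := by
      have := (hg i).ne'
      field_simp
    have hpi : 0 ≤ 12 * Real.pi / c := by positivity
    have hK2 : 0 ≤ K ^ 2 := by positivity
    rw [e1, Real.sqrt_mul (mul_nonneg hpi hK2), Real.sqrt_mul hpi, Real.sqrt_sq hK0.le, Real.sqrt_inv]
  rw [Finset.prod_congr rfl (fun i _ => h1 i), Finset.prod_mul_distrib, Finset.prod_const, Finset.card_univ,
    Fintype.card_fin, mul_pow]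

/-- the bound in terms of the correlation -/
theorem core_l {k : ℕ} {δ W T E c : ℝ} (hc0 : 0 < c) {C : Finset ℕ} {cl : Fin (k + 1) → ℕ}
    {al : Fin (k + 1) → ℝ} {Lam : ℕ → ℝ} {L : Fin k → ℝ} (hL : ∀ i, 0 < L i)
    (y : Fin k → ℝ) {K : ℝ} (hK : 1 ≤ K) {a b Cc : ℝ} (hab : a ≤ b) (hC : 0 < Cc)
    (hm : ∀ (ζ ζ' : Fin k → ℝ), (∀ i, |ζ i| ≤ 1) → (∀ i, |ζ' i| ≤ 1) →
        ‖∫ t in a..b, Gd δ W T (pt cl al Lam t) ζ * (starRingEnd ℂ) (Gd δ W T (pt cl al Lam t) ζ')‖ ≤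
          (b - a) * (Cc * Real.exp (-(Vd δ W T C cl al (fun i => ζ i - ζ' i)) / 12)) + E)
    (hv : ∀ ζ : Fin k → ℝ, c * ∑ i : Fin k, ζ i ^ 2 * L i ≤ Vd δ W T C cl al ζ)
    (hs : 2 ^ (k + 1) * ∑ j ∈ Finset.range (JJ T), Real.exp (-(dd δ j : ℝ)) ≤ (11 / 12 : ℝ) ^ k / 2)
    {S : Set ℝ} (hE : S ⊆ Icc a b)
    (hE1 : ∀ t ∈ S, ∀ i : Fin k, |(∑ j ∈ Finset.range (JJ T), (YB δ W T j (pt cl al Lam t i.succ) -
      YB δ W T j (pt cl al Lam t i.castSucc))) - y i| ≤ K)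
    (hE2 : ∀ t ∈ S, ∀ j ∈ Finset.range (JJ T), ∀ i : Fin (k + 1),
      |YB δ W T j (pt cl al Lam t i)| ≤ dd δ j / (100 * ((k : ℝ) + 1))) :
    (volume S).toReal ≤ (((11 / 12 : ℝ) ^ k / 2) ^ 2)⁻¹ *
      ((b - a) * Cc * (2 ^ k * ((Real.sqrt (12 * Real.pi / c)) ^ k * K ^ k *
        ∏ i : Fin k, (Real.sqrt (L i))⁻¹)) + 4 ^ k * E) := by
  have hK0 : (0 : ℝ) < K := by linarith
  set A : ℝ := (11 / 12 : ℝ) ^ k / 2 with hA
  have hA0 : 0 < A := by positivity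
  set q : Fin k → ℝ := fun i => c * L i / (12 * K ^ 2) with hq
  have hq0 : ∀ i, 0 < q i := fun i => div_pos (mul_pos hc0 (hL i)) (by positivity)
  have hc := lc_Phi_cont δ W T cl al Lam y K
  have h1 : (volume S).toReal ≤ (A ^ 2)⁻¹ *
      ∫ t in a..b, ‖∫ ξ in box k, PhiD δ W T y K ξ (pt cl al Lam t)‖ ^ 2 := by
    refine cheb _ (par_continuous (fun ξ t => PhiD δ W T y K ξ (pt cl al Lam t)) hc) a b A hab hA0 S hE
      (fun t ht => ?_)
    exact ffd_lower k δ W T _ y K hK hs (hE1 t ht) (hE2 t ht)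
  set R : (Fin k → ℝ) → (Fin k → ℝ) → ℝ := fun ξ ξ' =>
    ((b - a) * Cc) * Real.exp (-(∑ i, (ξ i - ξ' i) ^ 2 * q i)) + E with hR
  have hRc : Continuous (fun z : (Fin k → ℝ) × (Fin k → ℝ) => R z.1 z.2) := by
    refine Continuous.add (continuous_const.mul ?_) continuous_const
    refine Real.continuous_exp.comp (Continuous.neg ?_)
    refine continuous_finsetSum _ (fun i _ => ?_)
    exact ((((continuous_apply i).comp continuous_fst).sub
      ((continuous_apply i).comp continuous_snd)).pow 2).mul continuous_const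
  have h2 : (∫ t in a..b, ‖∫ ξ in box k, PhiD δ W T y K ξ (pt cl al Lam t)‖ ^ 2) ≤
      ∫ ξ in box k, ∫ ξ' in box k, R ξ ξ' := by
    refine sq_int_le (fun ξ t => PhiD δ W T y K ξ (pt cl al Lam t)) hc a b hab R hRc
      (fun ξ hξ ξ' hξ' => ?_)
    refine (lc_corr y hK hm hξ hξ').trans ?_
    have e1 : (b - a) * (Cc * Real.exp (-(Vd δ W T C cl al (fun i => ξ i / K - ξ' i / K)) / 12)) ≤
        ((b - a) * Cc) * Real.exp (-(∑ i, (ξ i - ξ' i) ^ 2 * q i)) := by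
      rw [← mul_assoc]
      refine mul_le_mul_of_nonneg_left ?_ (mul_nonneg (by linarith) hC.le)
      rw [Real.exp_le_exp]
      have e2 := hv (fun i => ξ i / K - ξ' i / K)
      have e3 : ∑ i, (ξ i - ξ' i) ^ 2 * q i = (c *
          ∑ i : Fin k, (ξ i / K - ξ' i / K) ^ 2 * L i) / 12 := by
        rw [Finset.mul_sum, Finset.sum_div]
        refine Finset.sum_congr rfl (fun i _ => ?_)
        rw [hq]
        field_simp
      rw [e3]
      linarith
    exact add_le_add_left e1 _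
  have h3 : (∫ ξ in box k, ∫ ξ' in box k, R ξ ξ') ≤
      ((b - a) * Cc) * (2 ^ k * ∏ i, Real.sqrt (Real.pi / q i)) + 4 ^ k * E :=
    lc_double q hq0 (mul_nonneg (by linarith) hC.le)
  rw [hq, lc_prod hK hc0 _ hL] at h3
  refine h1.trans ?_
  exact mul_le_mul_of_nonneg_left (h2.trans h3) (by positivity)

end Pool.Agent.Lib.MP_ec260d_ntD.LG
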