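import Mathlib
import Pool.Agent.Lib.MP_ec260d_ntD.L.LDefs

/-!
# Averages over intervals for characters with slopes
-/

namespace Pool.Agent.Lib.MP_ec260d_ntD.LG

open Complex Set Filter Topology MeasureTheory Pool.Agent.Lib.MP_ec260d_ntB

/-- non-resonance for the classes in `C` -/
def NRh (Lam : ℕ → ℝ) (C : Finset ℕ) (H τ : ℝ) : Prop :=
  ∀ A B : ℕ → ℕ, (∀ c ∈ C, 1 ≤ A c ∧ 1 ≤ B c ∧ (A c : ℝ) ≤ H ∧ (B c : ℝ) ≤ H) →
    (∃ c ∈ C, A c ≠ B c) →
      τ ≤ |∑ c ∈ C, Lam c * (Real.log (A c) - Real.log (B c))|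

theorem zc_norm (Lam : ℕ → ℝ) (t : ℝ) (q : ℕ) : ‖zc Lam t q‖ = 1 := by
  unfold zc
  have h : -((t * (Lam (labc q) * Real.log (labp q)) : ℝ) : ℂ) * I =
      ((-(t * (Lam (labc q) * Real.log (labp q))) : ℝ) : ℂ) * I := by
    push_cast
    ring
  rw [h]
  exact Complex.norm_exp_ofReal_mul_I _

private theorem lavg_cpt_pos {n : ℕ} (hn : ∀ q ∈ n.primeFactors, 1 ≤ labp q) (c : ℕ) : 1 ≤ cpt c n := by
  unfold cpt Finsupp.prod
  rw [Nat.support_factorization]
  refine Nat.one_le_iff_ne_zero.2 (Finset.prod_ne_zero_iff.2 (fun q hq => ?_))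
  have := hn q hq
  show (if labc q = c then labp q ^ _ else 1) ≠ 0
  split_ifs
  · positivity
  · exact one_ne_zero

private theorem lavg_cpt_le {n : ℕ} (hn : ∀ q ∈ n.primeFactors, 1 ≤ labp q) (c : ℕ) :
    (cpt c n : ℝ) ≤ wtl n := by
  unfold cpt wtl Finsupp.prod
  rw [Nat.support_factorization]
  push_cast
  refine Finset.prod_le_prod (fun q hq => ?_) (fun q hq => ?_)
  · split_ifs
    · positivity
    · exact zero_le_one
  · have h1 : (1 : ℝ) ≤ labp q := by exact_mod_cast hn q hq
    split_ifs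
    · exact le_rfl
    · exact one_le_pow₀ h1

private theorem lavg_log_cpt {n : ℕ} (hn : ∀ q ∈ n.primeFactors, 1 ≤ labp q) (c : ℕ) :
    Real.log (cpt c n) = ∑ q ∈ n.primeFactors,
      if labc q = c then (n.factorization q : ℝ) * Real.log (labp q) else 0 := by
  unfold cpt Finsupp.prod
  rw [Nat.support_factorization]
  push_cast
  rw [Real.log_prod]
  · refine Finset.sum_congr rfl (fun q hq => ?_)
    split_ifs
    · rw [Real.log_pow]
    · rw [Real.log_one]
  · intro q hq
    have h1 : (1 : ℝ) ≤ labp q := by exact_mod_cast hn q hq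
    split_ifs
    · positivity
    · exact one_ne_zero

private theorem lavg_cm (Lam : ℕ → ℝ) (C : Finset ℕ) (t : ℝ) {n : ℕ}
    (hn : ∀ q ∈ n.primeFactors, 1 ≤ labp q) (hC : ∀ q ∈ n.primeFactors, labc q ∈ C) :
    cm (zc Lam t) n = cexp (-((t * ∑ c ∈ C, Lam c * Real.log (cpt c n) : ℝ) : ℂ) * I) := by
  have h1 : ∑ c ∈ C, Lam c * Real.log (cpt c n) =
      ∑ q ∈ n.primeFactors, (n.factorization q : ℝ) * (Lam (labc q) * Real.log (labp q)) := by
    have e1 : ∀ c ∈ C, Lam c * Real.log (cpt c n) = ∑ q ∈ n.primeFactors,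
        if labc q = c then (n.factorization q : ℝ) * (Lam c * Real.log (labp q)) else 0 := by
      intro c _
      rw [lavg_log_cpt hn, Finset.mul_sum]
      refine Finset.sum_congr rfl (fun q _ => ?_)
      split_ifs
      · ring
      · ring
    rw [Finset.sum_congr rfl e1, Finset.sum_comm]
    refine Finset.sum_congr rfl (fun q hq => ?_)
    rw [Finset.sum_ite_eq]
    rw [if_pos (hC q hq)]
  rw [h1]
  unfold cm Finsupp.prod
  rw [Nat.support_factorization]
  have h : -((t * ∑ q ∈ n.primeFactors, (n.factorization q : ℝ) *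
      (Lam (labc q) * Real.log (labp q)) : ℝ) : ℂ) * I =
      ∑ q ∈ n.primeFactors, (n.factorization q : ℂ) *
        (-((t * (Lam (labc q) * Real.log (labp q)) : ℝ) : ℂ) * I) := by
    push_cast
    rw [Finset.mul_sum, ← Finset.sum_neg_distrib, Finset.sum_mul]
    refine Finset.sum_congr rfl ?_
    intro p _
    ring
  rw [h, Complex.exp_sum]
  refine Finset.prod_congr rfl ?_
  intro q _
  unfold zc
  exact (Complex.exp_nat_mul _ _).symm

private theorem lavg_fac {n : ℕ} {q : ℕ} (hq : q.Prime) (hp : (labp q).Prime)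
    (hn : ∀ q ∈ n.primeFactors, (labp q).Prime) :
    (cpt (labc q) n).factorization (labp q) = n.factorization q := by
  unfold cpt Finsupp.prod
  rw [Nat.support_factorization, Nat.factorization_prod]
  · rw [Finset.sum_apply']
    have e1 : ∀ r ∈ n.primeFactors,
        (if labc r = labc q then labp r ^ n.factorization r else 1).factorization (labp q) =
          if r = q then n.factorization r else 0 := by
      intro r hr
      have hrp := Nat.prime_of_mem_primeFactors hr
      split_ifs with h1 h2 h2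
      · subst h2
        rw [Nat.factorization_pow, hp.factorization]
        simp
      · have h3 : labp r ≠ labp q := by
          intro h4
          apply h2
          rw [← lab_lab hrp, h1, h4, lab_lab hq]
        rw [Nat.factorization_pow, (hn r hr).factorization]
        simp [h3]
      · subst h2
        exact absurd rfl h1
      · rw [Nat.factorization_one]
        rfl
    rw [Finset.sum_congr rfl e1, Finset.sum_ite_eq']
    split_ifs with h3
    · rfl
    · rw [eq_comm, ← Finsupp.notMem_support_iff, Nat.support_factorization]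
      exact h3
  · intro r hr
    show (if labc r = labc q then labp r ^ _ else 1) ≠ 0
    split_ifs
    · exact pow_ne_zero _ (hn r hr).ne_zero
    · exact one_ne_zero

private theorem lavg_inj {C : Finset ℕ} {a b : ℕ} (ha : a ≠ 0) (hb : b ≠ 0)
    (haP : ∀ q ∈ a.primeFactors, (labp q).Prime ∧ labc q ∈ C)
    (hbP : ∀ q ∈ b.primeFactors, (labp q).Prime ∧ labc q ∈ C)
    (h : ∀ c ∈ C, cpt c a = cpt c b) : a = b := by
  refine Nat.eq_of_factorization_eq ha hb (fun q => ?_)
  by_cases hq : q ∈ a.primeFactors ∨ q ∈ b.primeFactors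
  · have hq1 : q.Prime := by
      rcases hq with h1 | h1
      · exact Nat.prime_of_mem_primeFactors h1
      · exact Nat.prime_of_mem_primeFactors h1
    have hq2 : (labp q).Prime ∧ labc q ∈ C := by
      rcases hq with h1 | h1
      · exact haP q h1
      · exact hbP q h1
    rw [← lavg_fac hq1 hq2.1 (fun r hr => (haP r hr).1), ← lavg_fac hq1 hq2.1 (fun r hr => (hbP r hr).1),
      h _ hq2.2]
  · push Not at hq
    have h1 : a.factorization q = 0 := by
      rw [← Finsupp.notMem_support_iff, Nat.support_factorization]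
      exact hq.1
    have h2 : b.factorization q = 0 := by
      rw [← Finsupp.notMem_support_iff, Nat.support_factorization]
      exact hq.2
    rw [h1, h2]

private theorem lavg_int {l τ : ℝ} (hτ : 0 < τ) (hl : τ ≤ |l|) (a b : ℝ) :
    ‖∫ t in a..b, cexp ((-((l : ℝ) : ℂ) * I) * (t : ℂ))‖ ≤ 2 / τ := by
  have hlp : 0 < |l| := lt_of_lt_of_le hτ hl
  have hl0 : l ≠ 0 := abs_pos.1 hlp
  have hc : (-((l : ℝ) : ℂ) * I) ≠ 0 := by
    refine mul_ne_zero ?_ Complex.I_ne_zero
    exact neg_ne_zero.2 (by exact_mod_cast hl0)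
  rw [integral_exp_mul_complex hc, norm_div]
  have hn : ‖(-((l : ℝ) : ℂ) * I)‖ = |l| := by
    rw [norm_mul, norm_neg, Complex.norm_I, mul_one, Complex.norm_real, Real.norm_eq_abs]
  have he : ∀ x : ℝ, ‖cexp ((-((l : ℝ) : ℂ) * I) * (x : ℂ))‖ = 1 := by
    intro x
    have h : (-((l : ℝ) : ℂ) * I) * (x : ℂ) = ((-(l * x) : ℝ) : ℂ) * I := by
      push_cast
      ring
    rw [h]
    exact Complex.norm_exp_ofReal_mul_I _
  rw [hn]
  have h1 : ‖cexp ((-((l : ℝ) : ℂ) * I) * (b : ℂ)) - cexp ((-((l : ℝ) : ℂ) * I) * (a : ℂ))‖ ≤ 2 := by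
    refine (norm_sub_le _ _).trans ?_
    rw [he, he]
    norm_num
  exact div_le_div₀ zero_le_two h1 hτ hl

/-- averages of weighted trigonometric polynomials over intervals -/
theorem avg_l {C P S : Finset ℕ} (hS : S ⊆ LS C P) (hP : ∀ p ∈ P, p.Prime) {H B τ : ℝ} {m : ℂ}
    {g : (ℕ → ℂ) → ℂ} (h : RepW S H B m g) (hτ : 0 < τ) {Lam : ℕ → ℝ} (hNR : NRh Lam C H τ) (a b : ℝ) :
    ‖(∫ t in a..b, g (zc Lam t)) - ((b - a : ℝ) : ℂ) * m‖ ≤ 2 / τ * B := by
  obtain ⟨ι, hι, A, D, c, h1, h2, h3, h4⟩ := h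
  have hSP : ∀ q ∈ S, (labp q).Prime ∧ labc q ∈ C := by
    intro q hq
    have h5 := mem_LS.1 (hS hq)
    exact ⟨hP _ h5.2.2, h5.2.1⟩
  set fr : ℕ → ℝ := fun n => ∑ c ∈ C, Lam c * Real.log (cpt c n) with hfr
  have hcm : ∀ (t : ℝ) (n : ℕ), n.primeFactors ⊆ S →
      cm (zc Lam t) n = cexp (-((t * fr n : ℝ) : ℂ) * I) := by
    intro t n hn
    exact lavg_cm Lam C t (fun q hq => (hSP q (hn hq)).1.one_lt.le) (fun q hq => (hSP q (hn hq)).2)
  have hg : ∀ t : ℝ, g (zc Lam t) =
      ∑ i, c i * cexp ((-((fr (A i) - fr (D i) : ℝ) : ℂ) * I) * (t : ℂ)) := by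
    intro t
    rw [h4 (zc Lam t) (zc_norm Lam t)]
    refine Finset.sum_congr rfl ?_
    intro i _
    rw [hcm t _ (h1 i).2.2.2.2.1, hcm t _ (h1 i).2.2.2.2.2, mul_assoc, ← Complex.exp_conj,
      ← Complex.exp_add]
    congr 2
    rw [map_mul, map_neg, Complex.conj_ofReal, Complex.conj_I]
    push_cast
    ring
  have hI : (∫ t in a..b, g (zc Lam t)) =
      ∑ i, c i * ∫ t in a..b, cexp ((-((fr (A i) - fr (D i) : ℝ) : ℂ) * I) * (t : ℂ)) := by
    have e1 : (∫ t in a..b, g (zc Lam t)) = ∫ t in a..b,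
        ∑ i, c i * cexp ((-((fr (A i) - fr (D i) : ℝ) : ℂ) * I) * (t : ℂ)) := by
      refine intervalIntegral.integral_congr ?_
      intro t _
      exact hg t
    rw [e1, intervalIntegral.integral_finsetSum]
    · refine Finset.sum_congr rfl ?_
      intro i _
      exact intervalIntegral.integral_const_mul _ _
    · intro i _
      refine Continuous.intervalIntegrable ?_ _ _
      fun_prop
  have hm : ((b - a : ℝ) : ℂ) * m = ∑ i, c i * (if A i = D i then ((b - a : ℝ) : ℂ) else 0) := by
    rw [← h3, Finset.mul_sum]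
    refine Finset.sum_congr rfl ?_
    intro i _
    by_cases hi : A i = D i
    · rw [if_pos hi, if_pos hi]
      ring
    · rw [if_neg hi, if_neg hi]
      ring
  rw [hI, hm, ← Finset.sum_sub_distrib]
  have hHp : 0 ≤ 2 / τ := by positivity
  calc ‖∑ i, (c i * (∫ t in a..b, cexp ((-((fr (A i) - fr (D i) : ℝ) : ℂ) * I) * (t : ℂ))) -
        c i * (if A i = D i then ((b - a : ℝ) : ℂ) else 0))‖
      ≤ ∑ i, ‖c i * (∫ t in a..b, cexp ((-((fr (A i) - fr (D i) : ℝ) : ℂ) * I) * (t : ℂ))) -
        c i * (if A i = D i then ((b - a : ℝ) : ℂ) else 0)‖ := norm_sum_le _ _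
    _ ≤ ∑ i, 2 / τ * ‖c i‖ := by
        refine Finset.sum_le_sum ?_
        intro i _
        rw [← mul_sub, norm_mul, mul_comm]
        refine mul_le_mul_of_nonneg_right ?_ (norm_nonneg _)
        by_cases hi : A i = D i
        · rw [if_pos hi, hi, sub_self]
          have e2 : (∫ t in a..b, cexp ((-((0 : ℝ) : ℂ) * I) * (t : ℂ))) = ((b - a : ℝ) : ℂ) := by
            have e3 : ∀ t : ℝ, cexp ((-((0 : ℝ) : ℂ) * I) * (t : ℂ)) = 1 := by
              intro t
              rw [Complex.ofReal_zero, neg_zero, zero_mul, zero_mul, Complex.exp_zero]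
            rw [intervalIntegral.integral_congr (g := fun _ => (1 : ℂ)) (fun t _ => e3 t)]
            rw [intervalIntegral.integral_const]
            rw [Complex.real_smul, mul_one]
          rw [e2, sub_self, norm_zero]
          exact hHp
        · rw [if_neg hi, sub_zero]
          obtain ⟨ha0, hb0, haH, hbH, haS, hbS⟩ := h1 i
          refine lavg_int hτ ?_ a b
          have haP : ∀ q ∈ (A i).primeFactors, (labp q).Prime ∧ labc q ∈ C := fun q hq => hSP q (haS hq)
          have hbP : ∀ q ∈ (D i).primeFactors, (labp q).Prime ∧ labc q ∈ C := fun q hq => hSP q (hbS hq)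
          have haP1 : ∀ q ∈ (A i).primeFactors, 1 ≤ labp q := fun q hq => (haP q hq).1.one_lt.le
          have hbP1 : ∀ q ∈ (D i).primeFactors, 1 ≤ labp q := fun q hq => (hbP q hq).1.one_lt.le
          have h6 := hNR (fun c => cpt c (A i)) (fun c => cpt c (D i))
            (fun c _ => ⟨lavg_cpt_pos haP1 c, lavg_cpt_pos hbP1 c, (lavg_cpt_le haP1 c).trans haH,
              (lavg_cpt_le hbP1 c).trans hbH⟩)
            (by
              by_contra hcon
              push Not at hcon
              exact hi (lavg_inj ha0 hb0 haP hbP hcon))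
          have h7 : fr (A i) - fr (D i) =
              ∑ c ∈ C, Lam c * (Real.log (cpt c (A i)) - Real.log (cpt c (D i))) := by
            rw [hfr]
            simp only
            rw [← Finset.sum_sub_distrib]
            refine Finset.sum_congr rfl (fun c _ => ?_)
            ring
          rw [h7]
          exact h6
    _ = 2 / τ * ∑ i, ‖c i‖ := by rw [Finset.mul_sum]
    _ ≤ 2 / τ * B := mul_le_mul_of_nonneg_left h2 hHp

end Pool.Agent.Lib.MP_ec260d_ntD.LG
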