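import Mathlib
import Pool.Agent.Lib.MP_ec260d_ntB.CRep
import Pool.Agent.Lib.MP_ec260d_ntD.L.LDefs

/-!
# Calculus of weighted representations (adapted from CRep and CBlk of theorem B)
-/

namespace Pool.Agent.Lib.MP_ec260d_ntD.LG

open Complex Set Filter Topology MeasureTheory Pool.Agent.Lib.MP_ec260d_ntB

theorem repw_nonneg {S : Finset ℕ} {H B : ℝ} {m : ℂ} {g : (ℕ → ℂ) → ℂ} (h : RepW S H B m g) : 0 ≤ B := by
  obtain ⟨ι, _, a, b, c, _, h2, _, _⟩ := h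
  exact (Finset.sum_nonneg (fun i _ => norm_nonneg (c i))).trans h2

theorem repw_mono {S S' : Finset ℕ} {H H' B B' : ℝ} {m : ℂ} {g : (ℕ → ℂ) → ℂ}
    (h : RepW S H B m g) (hS : S ⊆ S') (hH : H ≤ H') (hB : B ≤ B') : RepW S' H' B' m g := by
  obtain ⟨ι, hι, a, b, c, h1, h2, h3, h4⟩ := h
  refine ⟨ι, hι, a, b, c, ?_, h2.trans hB, h3, h4⟩
  intro i
  obtain ⟨ha, hb, haH, hbH, haS, hbS⟩ := h1 i
  exact ⟨ha, hb, haH.trans hH, hbH.trans hH, haS.trans hS, hbS.trans hS⟩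

theorem repw_congr {S : Finset ℕ} {H B : ℝ} {m : ℂ} {g g' : (ℕ → ℂ) → ℂ} (h : RepW S H B m g)
    (hg : ∀ z : ℕ → ℂ, (∀ p, ‖z p‖ = 1) → g' z = g z) : RepW S H B m g' := by
  obtain ⟨ι, hι, a, b, c, h1, h2, h3, h4⟩ := h
  exact ⟨ι, hι, a, b, c, h1, h2, h3, fun z hz => (hg z hz).trans (h4 z hz)⟩

theorem repw_zero (S : Finset ℕ) (H : ℝ) : RepW S H 0 0 (fun _ => 0) := by
  refine ⟨Empty, inferInstance, fun e => e.elim, fun e => e.elim, fun e => e.elim, fun e => e.elim,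
    ?_, ?_, ?_⟩
  · simp
  · simp
  · intro z _
    simp

theorem repw_const (c : ℂ) : RepW ∅ 1 ‖c‖ c (fun _ => c) := by
  refine ⟨Unit, inferInstance, fun _ => 1, fun _ => 1, fun _ => c, ?_, ?_, ?_, ?_⟩
  · intro _
    simp [wtl_one]
  · simp
  · simp
  · intro z _
    rw [Fintype.sum_unique, cm_one, map_one, mul_one, mul_one]

theorem repw_var {p : ℕ} (hp : p.Prime) {x : ℝ} (hx1 : 1 ≤ x) (hx : (labp p : ℝ) ≤ x) :
    RepW {p} x 1 0 (fun z => z p) := by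
  refine ⟨Unit, inferInstance, fun _ => p, fun _ => 1, fun _ => 1, ?_, ?_, ?_, ?_⟩
  · intro _
    refine ⟨hp.ne_zero, one_ne_zero, ?_, ?_, ?_, ?_⟩
    · rw [wtl_prime hp]
      exact hx
    · rw [wtl_one]
      exact hx1
    · rw [hp.primeFactors]
    · rw [Nat.primeFactors_one]
      exact Finset.empty_subset _
  · simp
  · rw [Fintype.sum_unique, if_neg hp.one_lt.ne']
  · intro z _
    rw [Fintype.sum_unique, cm_one, cm_prime z hp, map_one, mul_one, one_mul]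

theorem repw_smul {S : Finset ℕ} {H B : ℝ} {m : ℂ} {g : (ℕ → ℂ) → ℂ} (c : ℂ) (h : RepW S H B m g) :
    RepW S H (‖c‖ * B) (c * m) (fun z => c * g z) := by
  obtain ⟨ι, hι, a, b, d, h1, h2, h3, h4⟩ := h
  refine ⟨ι, hι, a, b, fun i => c * d i, h1, ?_, ?_, ?_⟩
  · calc ∑ i, ‖c * d i‖ = ‖c‖ * ∑ i, ‖d i‖ := by
          rw [Finset.mul_sum]
          exact Finset.sum_congr rfl (fun i _ => norm_mul _ _)
      _ ≤ ‖c‖ * B := mul_le_mul_of_nonneg_left h2 (norm_nonneg c)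
  · rw [← h3, Finset.mul_sum]
    apply Finset.sum_congr rfl
    intro i _
    rw [mul_ite, mul_zero]
  · intro z hz
    show c * g z = _
    rw [h4 z hz, Finset.mul_sum]
    apply Finset.sum_congr rfl
    intro i _
    ring

theorem repw_conj {S : Finset ℕ} {H B : ℝ} {m : ℂ} {g : (ℕ → ℂ) → ℂ} (h : RepW S H B m g) :
    RepW S H B ((starRingEnd ℂ) m) (fun z => (starRingEnd ℂ) (g z)) := by
  obtain ⟨ι, hι, a, b, c, h1, h2, h3, h4⟩ := h
  refine ⟨ι, hι, b, a, fun i => (starRingEnd ℂ) (c i), ?_, ?_, ?_, ?_⟩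
  · intro i
    obtain ⟨ha, hb, haH, hbH, haS, hbS⟩ := h1 i
    exact ⟨hb, ha, hbH, haH, hbS, haS⟩
  · rw [Finset.sum_congr rfl (fun i _ => RCLike.norm_conj (c i))]
    exact h2
  · rw [← h3, map_sum]
    apply Finset.sum_congr rfl
    intro i _
    by_cases h : a i = b i
    · rw [if_pos h, if_pos h.symm]
    · rw [if_neg h, if_neg (fun h' => h h'.symm), map_zero]
  · intro z hz
    show (starRingEnd ℂ) (g z) = _
    rw [h4 z hz, map_sum]
    apply Finset.sum_congr rfl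
    intro i _
    rw [map_mul, map_mul, Complex.conj_conj]
    ring

theorem repw_add {S : Finset ℕ} {H B B' : ℝ} {m m' : ℂ} {g g' : (ℕ → ℂ) → ℂ}
    (h : RepW S H B m g) (h' : RepW S H B' m' g') :
    RepW S H (B + B') (m + m') (fun z => g z + g' z) := by
  obtain ⟨ι, hι, a, b, c, h1, h2, h3, h4⟩ := h
  obtain ⟨ι', hι', a', b', c', h1', h2', h3', h4'⟩ := h'
  refine ⟨ι ⊕ ι', inferInstance, Sum.elim a a', Sum.elim b b', Sum.elim c c', ?_, ?_, ?_, ?_⟩
  · rintro (i | i)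
    · exact h1 i
    · exact h1' i
  · rw [Fintype.sum_sum_type]
    exact add_le_add h2 h2'
  · rw [Fintype.sum_sum_type, ← h3, ← h3']
    rfl
  · intro z hz
    rw [Fintype.sum_sum_type]
    show g z + g' z = _
    rw [h4 z hz, h4' z hz]
    rfl

theorem repw_sum {R : Finset ℕ} {S : Finset ℕ} {H : ℝ} {B : ℕ → ℝ} {m : ℕ → ℂ}
    {g : ℕ → (ℕ → ℂ) → ℂ} (h : ∀ r ∈ R, RepW S H (B r) (m r) (g r)) :
    RepW S H (∑ r ∈ R, B r) (∑ r ∈ R, m r) (fun z => ∑ r ∈ R, g r z) := by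
  classical
  induction R using Finset.induction_on with
  | empty =>
    simp only [Finset.sum_empty]
    exact repw_zero S H
  | insert r R hr ih =>
    simp only [Finset.sum_insert hr]
    exact repw_add (h r (Finset.mem_insert_self r R))
      (ih (fun r' hr' => h r' (Finset.mem_insert_of_mem hr')))

private theorem lrep_norm {ι ι' : Type} [Fintype ι] [Fintype ι'] (c : ι → ℂ) (c' : ι' → ℂ)
    {B B' : ℝ} (h2 : ∑ i, ‖c i‖ ≤ B) (h2' : ∑ i, ‖c' i‖ ≤ B') :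
    ∑ i : ι × ι', ‖c i.1 * c' i.2‖ ≤ B * B' := by
  have h : ∑ i : ι × ι', ‖c i.1 * c' i.2‖ = (∑ i, ‖c i‖) * ∑ i, ‖c' i‖ := by
    rw [Finset.sum_mul_sum, Fintype.sum_prod_type]
    apply Finset.sum_congr rfl
    intro i _
    apply Finset.sum_congr rfl
    intro j _
    exact norm_mul _ _
  rw [h]
  exact mul_le_mul h2 h2' (Finset.sum_nonneg (fun i _ => norm_nonneg _))
    ((Finset.sum_nonneg (fun i _ => norm_nonneg _)).trans h2)

private theorem lrep_eval {ι ι' : Type} [Fintype ι] [Fintype ι'] (z : ℕ → ℂ) (a b : ι → ℕ)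
    (a' b' : ι' → ℕ) (c : ι → ℂ) (c' : ι' → ℂ) (ha : ∀ i, a i ≠ 0) (hb : ∀ i, b i ≠ 0)
    (ha' : ∀ i, a' i ≠ 0) (hb' : ∀ i, b' i ≠ 0) {x x' : ℂ}
    (hx : x = ∑ i, c i * cm z (a i) * (starRingEnd ℂ) (cm z (b i)))
    (hx' : x' = ∑ i, c' i * cm z (a' i) * (starRingEnd ℂ) (cm z (b' i))) :
    x * x' = ∑ i : ι × ι', (c i.1 * c' i.2) * cm z (a i.1 * a' i.2) *
      (starRingEnd ℂ) (cm z (b i.1 * b' i.2)) := by
  rw [hx, hx', Finset.sum_mul_sum, Fintype.sum_prod_type]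
  apply Finset.sum_congr rfl
  intro i _
  apply Finset.sum_congr rfl
  intro j _
  show _ = (c i * c' j) * cm z (a i * a' j) * (starRingEnd ℂ) (cm z (b i * b' j))
  rw [cm_mul z (ha i) (ha' j), cm_mul z (hb i) (hb' j), map_mul]
  ring

private theorem lrep_cop {S S' : Finset ℕ} (hd : Disjoint S S') {a b : ℕ} (ha : a ≠ 0) (hb : b ≠ 0)
    (haS : a.primeFactors ⊆ S) (hbS : b.primeFactors ⊆ S') : Nat.Coprime a b := by
  rw [← Nat.disjoint_primeFactors ha hb]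
  exact Finset.disjoint_of_subset_left haS (Finset.disjoint_of_subset_right hbS hd)

private theorem lrep_iff {S S' : Finset ℕ} (hd : Disjoint S S') {a b a' b' : ℕ} (ha : a ≠ 0)
    (hb : b ≠ 0) (ha' : a' ≠ 0) (hb' : b' ≠ 0) (haS : a.primeFactors ⊆ S)
    (hbS : b.primeFactors ⊆ S) (haS' : a'.primeFactors ⊆ S') (hbS' : b'.primeFactors ⊆ S') :
    a * a' = b * b' ↔ a = b ∧ a' = b' := by
  constructor
  · intro h
    have h1 : a ∣ b := by
      have : a ∣ b * b' := by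
        rw [← h]
        exact dvd_mul_right a a'
      exact (lrep_cop hd ha hb' haS hbS').dvd_of_dvd_mul_right this
    have h2 : b ∣ a := by
      have : b ∣ a * a' := by
        rw [h]
        exact dvd_mul_right b b'
      exact (lrep_cop hd hb ha' hbS haS').dvd_of_dvd_mul_right this
    have h3 : a = b := Nat.dvd_antisymm h1 h2
    subst h3
    exact ⟨rfl, Nat.eq_of_mul_eq_mul_left (Nat.pos_of_ne_zero ha) h⟩
  · rintro ⟨rfl, rfl⟩
    rfl

theorem repw_mul {S : Finset ℕ} {H H' B B' : ℝ} {m m' : ℂ} {g g' : (ℕ → ℂ) → ℂ}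
    (h : RepW S H B m g) (h' : RepW S H' B' m' g') :
    ∃ m'' : ℂ, RepW S (H * H') (B * B') m'' (fun z => g z * g' z) := by
  obtain ⟨ι, hι, a, b, c, h1, h2, h3, h4⟩ := h
  obtain ⟨ι', hι', a', b', c', h1', h2', h3', h4'⟩ := h'
  refine ⟨∑ i : ι × ι', if a i.1 * a' i.2 = b i.1 * b' i.2 then c i.1 * c' i.2 else 0,
    ι × ι', inferInstance, fun i => a i.1 * a' i.2, fun i => b i.1 * b' i.2,
    fun i => c i.1 * c' i.2, ?_, ?_, rfl, ?_⟩
  · rintro ⟨i, j⟩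
    obtain ⟨ha, hb, haH, hbH, haS, hbS⟩ := h1 i
    obtain ⟨ha', hb', haH', hbH', haS', hbS'⟩ := h1' j
    refine ⟨mul_ne_zero ha ha', mul_ne_zero hb hb', ?_, ?_, ?_, ?_⟩
    · rw [wtl_mul ha ha']
      exact mul_le_mul haH haH' (wtl_nonneg _) ((wtl_nonneg _).trans haH)
    · rw [wtl_mul hb hb']
      exact mul_le_mul hbH hbH' (wtl_nonneg _) ((wtl_nonneg _).trans hbH)
    · rw [Nat.primeFactors_mul ha ha']
      exact Finset.union_subset haS haS'
    · rw [Nat.primeFactors_mul hb hb']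
      exact Finset.union_subset hbS hbS'
  · exact lrep_norm c c' h2 h2'
  · intro z hz
    exact lrep_eval z a b a' b' c c' (fun i => (h1 i).1) (fun i => (h1 i).2.1)
      (fun i => (h1' i).1) (fun i => (h1' i).2.1) (h4 z hz) (h4' z hz)

theorem repw_mul_disj {S S' : Finset ℕ} (hd : Disjoint S S') {H H' B B' : ℝ} {m m' : ℂ}
    {g g' : (ℕ → ℂ) → ℂ} (h : RepW S H B m g) (h' : RepW S' H' B' m' g') :
    RepW (S ∪ S') (H * H') (B * B') (m * m') (fun z => g z * g' z) := by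
  obtain ⟨ι, hι, a, b, c, h1, h2, h3, h4⟩ := h
  obtain ⟨ι', hι', a', b', c', h1', h2', h3', h4'⟩ := h'
  refine ⟨ι × ι', inferInstance, fun i => a i.1 * a' i.2, fun i => b i.1 * b' i.2,
    fun i => c i.1 * c' i.2, ?_, ?_, ?_, ?_⟩
  · rintro ⟨i, j⟩
    obtain ⟨ha, hb, haH, hbH, haS, hbS⟩ := h1 i
    obtain ⟨ha', hb', haH', hbH', haS', hbS'⟩ := h1' j
    refine ⟨mul_ne_zero ha ha', mul_ne_zero hb hb', ?_, ?_, ?_, ?_⟩
    · rw [wtl_mul ha ha']
      exact mul_le_mul haH haH' (wtl_nonneg _) ((wtl_nonneg _).trans haH)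
    · rw [wtl_mul hb hb']
      exact mul_le_mul hbH hbH' (wtl_nonneg _) ((wtl_nonneg _).trans hbH)
    · rw [Nat.primeFactors_mul ha ha']
      exact Finset.union_subset_union haS haS'
    · rw [Nat.primeFactors_mul hb hb']
      exact Finset.union_subset_union hbS hbS'
  · exact lrep_norm c c' h2 h2'
  · rw [← h3, ← h3', Finset.sum_mul_sum, Fintype.sum_prod_type]
    apply Finset.sum_congr rfl
    intro i _
    apply Finset.sum_congr rfl
    intro j _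
    show (if a i * a' j = b i * b' j then c i * c' j else 0) = _
    obtain ⟨ha, hb, haH, hbH, haS, hbS⟩ := h1 i
    obtain ⟨ha', hb', haH', hbH', haS', hbS'⟩ := h1' j
    have hiff := lrep_iff hd ha hb ha' hb' haS hbS haS' hbS'
    by_cases he : a i = b i
    · by_cases he' : a' j = b' j
      · rw [if_pos (hiff.mpr ⟨he, he'⟩), if_pos he, if_pos he']
      · rw [if_neg (fun hh => he' (hiff.mp hh).2), if_neg he', mul_zero]
    · rw [if_neg (fun hh => he (hiff.mp hh).1), if_neg he, zero_mul]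
  · intro z hz
    exact lrep_eval z a b a' b' c c' (fun i => (h1 i).1) (fun i => (h1 i).2.1)
      (fun i => (h1' i).1) (fun i => (h1' i).2.1) (h4 z hz) (h4' z hz)

theorem repw_pow {S : Finset ℕ} {H B : ℝ} {m : ℂ} {g : (ℕ → ℂ) → ℂ} (h : RepW S H B m g) (r : ℕ) :
    ∃ m' : ℂ, RepW S (H ^ r) (B ^ r) m' (fun z => g z ^ r) := by
  induction r with
  | zero =>
    refine ⟨1, ?_⟩
    simp only [pow_zero]
    exact repw_mono (repw_const 1) (Finset.empty_subset S) le_rfl (by rw [norm_one])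
  | succ r ih =>
    obtain ⟨m', hm'⟩ := ih
    obtain ⟨m'', hm''⟩ := repw_mul hm' h
    refine ⟨m'', ?_⟩
    simp only [pow_succ]
    exact hm''

theorem repw_prod {J : Finset ℕ} {S : ℕ → Finset ℕ}
    (hd : ∀ i ∈ J, ∀ j ∈ J, i ≠ j → Disjoint (S i) (S j)) {H B : ℕ → ℝ} {m : ℕ → ℂ}
    {g : ℕ → (ℕ → ℂ) → ℂ} (h : ∀ j ∈ J, RepW (S j) (H j) (B j) (m j) (g j)) :
    RepW (J.biUnion S) (∏ j ∈ J, H j) (∏ j ∈ J, B j) (∏ j ∈ J, m j) (fun z => ∏ j ∈ J, g j z) := by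
  classical
  induction J using Finset.induction_on with
  | empty =>
    simp only [Finset.prod_empty, Finset.biUnion_empty]
    exact repw_mono (repw_const 1) (Finset.empty_subset _) le_rfl (by rw [norm_one])
  | insert j J hj ih =>
    simp only [Finset.prod_insert hj, Finset.biUnion_insert]
    refine repw_mul_disj ?_ (h j (Finset.mem_insert_self j J))
      (ih (fun i hi k hk => hd i (Finset.mem_insert_of_mem hi) k (Finset.mem_insert_of_mem hk))
        (fun k hk => h k (Finset.mem_insert_of_mem hk)))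
    rw [Finset.disjoint_biUnion_right]
    intro k hk
    apply hd j (Finset.mem_insert_self j J) k (Finset.mem_insert_of_mem hk)
    rintro rfl
    exact hj hk

theorem repw_TH {S : Finset ℕ} {x X : ℝ} (hSp : ∀ p ∈ S, p.Prime) (hx : ∀ p ∈ S, (labp p : ℝ) ≤ x)
    (hx1 : 1 ≤ x) (u : ℕ → ℂ) (hu : ∑ p ∈ S, ‖u p‖ ≤ X) :
    ∃ m : ℂ, RepW S x X m (fun z => ((TH S u z : ℝ) : ℂ) * I) := by
  classical
  -- one prime
  have hp : ∀ p ∈ S, ∃ m : ℂ, RepW S x ‖u p‖ m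
      (fun z => (u p / 2) * z p + (-((starRingEnd ℂ) (u p)) / 2) * (starRingEnd ℂ) (z p)) := by
    intro p hpS
    have h1 := repw_smul (u p / 2) (repw_var (hSp p hpS) hx1 (hx p hpS))
    have h2 := repw_smul (-((starRingEnd ℂ) (u p)) / 2) (repw_conj (repw_var (hSp p hpS) hx1 (hx p hpS)))
    have h3 := repw_add h1 h2
    refine ⟨_, repw_mono h3 (Finset.singleton_subset_iff.2 hpS) le_rfl ?_⟩
    rw [mul_one, mul_one, norm_div, norm_div, norm_neg, RCLike.norm_conj]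
    have h4 : ‖(2 : ℂ)‖ = 2 := by simp
    rw [h4]
    linarith
  choose! m hm using hp
  have hsum := repw_sum (R := S) (S := S) (H := x) (B := fun p => ‖u p‖) (m := m)
    (g := fun p z => (u p / 2) * z p + (-((starRingEnd ℂ) (u p)) / 2) * (starRingEnd ℂ) (z p)) hm
  refine ⟨_, repw_congr (repw_mono hsum subset_rfl le_rfl hu) ?_⟩
  intro z _
  have h5 : ∀ w : ℂ, ((w.im : ℝ) : ℂ) * I = w / 2 - (starRingEnd ℂ) w / 2 := by
    intro w
    apply Complex.ext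
    · simp
    · simp
      ring
  unfold TH
  rw [h5, map_sum, Finset.sum_div, Finset.sum_div, ← Finset.sum_sub_distrib]
  refine Finset.sum_congr rfl fun p _ => ?_
  rw [map_mul]
  ring

theorem repw_ex {S : Finset ℕ} {x X : ℝ} (hSp : ∀ p ∈ S, p.Prime) (hx : ∀ p ∈ S, (labp p : ℝ) ≤ x)
    (hx1 : 1 ≤ x) (u : ℕ → ℂ) (hu : ∑ p ∈ S, ‖u p‖ ≤ X) (d : ℕ) :
    ∃ m : ℂ, RepW S (x ^ d) ((1 + X) ^ d) m (fun z => ex d (((TH S u z : ℝ) : ℂ) * I)) := by
  classical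
  have hX : 0 ≤ X := (Finset.sum_nonneg fun p _ => norm_nonneg (u p)).trans hu
  obtain ⟨m₀, h0⟩ := repw_TH hSp hx hx1 u hu
  have hr : ∀ r ∈ Finset.range (d + 1), ∃ m : ℂ, RepW S (x ^ d) (X ^ r * (d.choose r : ℝ)) m
      (fun z => (1 / (r.factorial : ℂ)) * (((TH S u z : ℝ) : ℂ) * I) ^ r) := by
    intro r hr
    have hrd : r ≤ d := Nat.lt_succ_iff.1 (Finset.mem_range.1 hr)
    obtain ⟨m₁, h1⟩ := repw_pow h0 r
    have h2 := repw_smul (1 / (r.factorial : ℂ)) h1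
    refine ⟨_, repw_mono h2 subset_rfl (pow_le_pow_right₀ hx1 hrd) ?_⟩
    have h3 : ‖(1 / (r.factorial : ℂ))‖ ≤ 1 := by
      rw [norm_div, norm_one, Complex.norm_natCast]
      rw [div_le_one (by exact_mod_cast r.factorial_pos)]
      exact_mod_cast r.factorial_pos
    have h4 : (1 : ℝ) ≤ (d.choose r : ℝ) := by
      exact_mod_cast Nat.choose_pos hrd
    have h5 : (0 : ℝ) ≤ X ^ r := pow_nonneg hX r
    calc ‖(1 / (r.factorial : ℂ))‖ * X ^ r ≤ 1 * X ^ r := mul_le_mul_of_nonneg_right h3 h5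
      _ = X ^ r * 1 := by ring
      _ ≤ X ^ r * (d.choose r : ℝ) := mul_le_mul_of_nonneg_left h4 h5
  choose! m hm using hr
  have hsum := repw_sum (R := Finset.range (d + 1)) (S := S) (H := x ^ d)
    (B := fun r => X ^ r * (d.choose r : ℝ)) (m := m)
    (g := fun r z => (1 / (r.factorial : ℂ)) * (((TH S u z : ℝ) : ℂ) * I) ^ r) hm
  have hB : (∑ r ∈ Finset.range (d + 1), X ^ r * (d.choose r : ℝ)) = (1 + X) ^ d := by
    rw [add_comm 1 X, add_pow]
    refine Finset.sum_congr rfl fun r _ => ?_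
    rw [one_pow, mul_one]
  rw [hB] at hsum
  refine ⟨_, repw_congr hsum ?_⟩
  intro z _
  unfold ex
  refine Finset.sum_congr rfl fun r _ => ?_
  ring

theorem repw_block {S : Finset ℕ} {x X : ℝ} (hSp : ∀ p ∈ S, p.Prime) (hx : ∀ p ∈ S, (labp p : ℝ) ≤ x)
    (hx1 : 1 ≤ x) (u v : ℕ → ℂ) (hu : ∑ p ∈ S, ‖u p‖ ≤ X) (hv : ∑ p ∈ S, ‖v p‖ ≤ X) (d : ℕ) :
    ∃ m : ℂ, RepW S (x ^ (2 * d)) ((1 + X) ^ (2 * d)) m
      (fun z => ex d (((TH S u z : ℝ) : ℂ) * I) *
        (starRingEnd ℂ) (ex d (((TH S v z : ℝ) : ℂ) * I))) := by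
  obtain ⟨m₁, h1⟩ := repw_ex hSp hx hx1 u hu d
  obtain ⟨m₂, h2⟩ := repw_ex hSp hx hx1 v hv d
  obtain ⟨m₃, h3⟩ := repw_mul h1 (repw_conj h2)
  rw [← pow_add, ← pow_add, ← two_mul] at h3
  exact ⟨m₃, h3⟩

end Pool.Agent.Lib.MP_ec260d_ntD.LG
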