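import Mathlib
import Pool.Agent.Lib.MP_ec260d_ntB.CPb
import Pool.Agent.Lib.MP_ec260d_ntB.CModel
import Pool.Agent.Lib.MP_ec260d_ntB.CPar
import Pool.Agent.Lib.MP_ec260d_ntD.L.LAvg
import Pool.Agent.Lib.MP_ec260d_ntD.L.LRep
import Pool.Agent.Lib.MP_ec260d_ntD.L.LTh

/-!
# The correlation of the products of truncated exponentials, with slopes
-/

namespace Pool.Agent.Lib.MP_ec260d_ntD.LG

open Complex Set Filter Topology MeasureTheory Pool.Agent.Lib.MP_ec260d_ntB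

private theorem lmean_sum {C P : Finset ℕ} {k : ℕ} (hC : C.card ≤ k + 1) (f : ℕ → ℝ)
    (hf : ∀ p ∈ P, 0 ≤ f p) :
    ∑ q ∈ LS C P, f (labp q) ≤ (k + 1) * ∑ p ∈ P, f p := by
  rw [sum_LS]
  have h1 : ∀ c ∈ C, ∑ p ∈ P, f (labp (lab c p)) = ∑ p ∈ P, f p := by
    intro c _
    refine Finset.sum_congr rfl fun p _ => ?_
    rw [labp_lab]
  rw [Finset.sum_congr rfl h1, Finset.sum_const, nsmul_eq_mul]
  refine mul_le_mul_of_nonneg_right ?_ (Finset.sum_nonneg hf)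
  exact_mod_cast hC

private theorem lmean_sq {W T : ℝ} (hW : 0 ≤ W) (hT : 1 < T) {k : ℕ} (cl : Fin (k + 1) → ℕ)
    (al : Fin (k + 1) → ℝ) (ζ : Fin k → ℝ) {c : ℝ} (_hc : 0 ≤ c) (hζ : ∀ i, |ζ i| ≤ c) {q : ℕ}
    (hp : 1 ≤ labp q) :
    ‖ud W T cl al ζ q‖ ^ 2 ≤ (c * k) ^ 2 * (1 / (labp q : ℝ)) := by
  have hp0 : (0 : ℝ) < labp q := by exact_mod_cast hp
  have h1 := ud_norm_le hW hT cl al ζ hζ hp
  have h2 : ((labp q : ℝ) ^ (-(1 / 2) : ℝ)) ^ 2 = 1 / (labp q : ℝ) := by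
    rw [← Real.rpow_natCast, ← Real.rpow_mul hp0.le]
    norm_num
    rw [Real.rpow_neg_one]
  calc ‖ud W T cl al ζ q‖ ^ 2 ≤ (c * k * (labp q : ℝ) ^ (-(1 / 2) : ℝ)) ^ 2 :=
        pow_le_pow_left₀ (norm_nonneg _) h1 2
    _ = (c * k) ^ 2 * (1 / (labp q : ℝ)) := by rw [mul_pow, h2]

private theorem lmean_one {W T : ℝ} (hW : 0 ≤ W) (hT : 1 < T) {k : ℕ} (cl : Fin (k + 1) → ℕ)
    (al : Fin (k + 1) → ℝ) (ζ : Fin k → ℝ) (hζ : ∀ i, |ζ i| ≤ 1) {q : ℕ} (hp : 1 ≤ labp q) :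
    ‖ud W T cl al ζ q‖ ≤ k := by
  have hp1 : (1 : ℝ) ≤ labp q := by exact_mod_cast hp
  have h1 := ud_norm_le hW hT cl al ζ hζ hp
  have h2 : (labp q : ℝ) ^ (-(1 / 2) : ℝ) ≤ 1 :=
    Real.rpow_le_one_of_one_le_of_nonpos hp1 (by norm_num)
  have hk : (0 : ℝ) ≤ k := Nat.cast_nonneg k
  calc ‖ud W T cl al ζ q‖ ≤ 1 * k * (labp q : ℝ) ^ (-(1 / 2) : ℝ) := h1
    _ ≤ 1 * k * 1 := mul_le_mul_of_nonneg_left h2 (by positivity)
    _ = k := by ring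

private theorem lmean_xs {δ T : ℝ} (hδ : 0 < δ) (hT : 1 < T) (j : ℕ) : 1 ≤ xs δ T j := by
  unfold xs
  refine Real.one_le_exp ?_
  have h1 : 0 < Real.log T := Real.log_pos hT
  have h2 := Real.exp_pos (-(j : ℝ))
  positivity

private theorem lmean_lab {δ T : ℝ} {j : ℕ} {C : Finset ℕ} {q : ℕ} (hq : q ∈ LS C (Pr δ T j)) :
    labp q ∈ Pr δ T j := (mem_LS.1 hq).2.2

private theorem lmean_sumu {W T δ : ℝ} (hW : 0 ≤ W) (hδ : 0 < δ) (hT : 1 < T) {k : ℕ}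
    (cl : Fin (k + 1) → ℕ) (al : Fin (k + 1) → ℝ) {C : Finset ℕ} (hC : C.card ≤ k + 1)
    (ζ : Fin k → ℝ) (hζ : ∀ i, |ζ i| ≤ 1) (j : ℕ) :
    ∑ q ∈ LS C (Pr δ T j), ‖ud W T cl al ζ q‖ ≤ (k * (k + 1)) * xs δ T j := by
  have hx : 0 ≤ xs δ T j := zero_le_one.trans (lmean_xs hδ hT j)
  have hcard : ((Pr δ T j).card : ℝ) ≤ xs δ T j := by
    have h1 : Pr δ T j ⊆ Finset.Icc 1 ⌊xs δ T j⌋₊ := by
      intro p hp
      obtain ⟨h2, -, -, h3⟩ := pr_mem hp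
      rw [Finset.mem_Icc]
      exact ⟨h2.one_lt.le, Nat.le_floor h3⟩
    have h2 := Finset.card_le_card h1
    rw [Nat.card_Icc, Nat.add_sub_cancel] at h2
    calc ((Pr δ T j).card : ℝ) ≤ (⌊xs δ T j⌋₊ : ℝ) := by exact_mod_cast h2
      _ ≤ xs δ T j := Nat.floor_le hx
  have hk : (0 : ℝ) ≤ k := Nat.cast_nonneg k
  calc ∑ q ∈ LS C (Pr δ T j), ‖ud W T cl al ζ q‖ ≤ ∑ q ∈ LS C (Pr δ T j), (fun _ => (k : ℝ)) (labp q) :=
        Finset.sum_le_sum fun q hq => lmean_one hW hT cl al ζ hζ (pr_mem (lmean_lab hq)).1.one_lt.le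
    _ ≤ (k + 1) * ∑ p ∈ Pr δ T j, (k : ℝ) := lmean_sum hC (fun _ => (k : ℝ)) (fun _ _ => hk)
    _ = (k + 1) * ((Pr δ T j).card * k) := by rw [Finset.sum_const, nsmul_eq_mul]
    _ ≤ (k + 1) * (xs δ T j * k) :=
        mul_le_mul_of_nonneg_left (mul_le_mul_of_nonneg_right hcard hk) (by positivity)
    _ = (k * (k + 1)) * xs δ T j := by ring

private theorem lmean_exp {V Q e d : ℝ} (hQ : 0 ≤ Q) (hd : V / 6 ≤ d) (he : e = Real.exp (-d / 2)) :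
    Real.exp (-V / 12 + Q) + Real.exp (-d) ≤ Real.exp (-V / 12 + Q + e) := by
  have he0 : 0 < e := by
    rw [he]
    exact Real.exp_pos _
  have h1 : Real.exp (-d) ≤ Real.exp (-V / 12) * e := by
    rw [he, ← Real.exp_add]
    exact Real.exp_le_exp.2 (by linarith)
  have h2 : Real.exp (-V / 12) * e ≤ Real.exp (-V / 12 + Q) * e := by
    refine mul_le_mul_of_nonneg_right ?_ he0.le
    exact Real.exp_le_exp.2 (by linarith)
  have h3 : 1 + e ≤ Real.exp e := by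
    have := Real.add_one_le_exp e
    linarith
  calc Real.exp (-V / 12 + Q) + Real.exp (-d) ≤ Real.exp (-V / 12 + Q) * (1 + e) := by
        rw [mul_add, mul_one]
        linarith
    _ ≤ Real.exp (-V / 12 + Q) * Real.exp e := mul_le_mul_of_nonneg_left h3 (Real.exp_pos _).le
    _ = Real.exp (-V / 12 + Q + e) := (Real.exp_add _ _).symm

theorem NRh_mono {Lam : ℕ → ℝ} {C : Finset ℕ} {H H' τ : ℝ} (h : NRh Lam C H' τ) (hH : H ≤ H') :
    NRh Lam C H τ := by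
  intro A B hAB hne
  exact h A B (fun c hc => ⟨(hAB c hc).1, (hAB c hc).2.1, (hAB c hc).2.2.1.trans hH,
    (hAB c hc).2.2.2.trans hH⟩) hne

theorem mean_l (k : ℕ) (κ : ℝ) (hκ : 0 < κ) :
    ∃ δ₁ Cc : ℝ, 0 < δ₁ ∧ δ₁ ≤ 1 ∧ 0 < Cc ∧ ∀ δ : ℝ, 0 < δ → δ ≤ δ₁ →
    ∃ T₀ : ℝ, 2 ≤ T₀ ∧ ∀ W T : ℝ, 0 ≤ W → T₀ ≤ T → ∀ (C : Finset ℕ) (cl : Fin (k + 1) → ℕ)
      (al : Fin (k + 1) → ℝ) (Lam : ℕ → ℝ) (τ : ℝ), C.card ≤ k + 1 → (∀ i, cl i ∈ C) → 0 < τ →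
      NRh Lam C (T ^ κ) τ → ∀ (ζ ζ' : Fin k → ℝ),
      (∀ i, |ζ i| ≤ 1) → (∀ i, |ζ' i| ≤ 1) → ∀ a b : ℝ, a ≤ b →
        ‖∫ t in a..b, Gd δ W T (pt cl al Lam t) ζ * (starRingEnd ℂ) (Gd δ W T (pt cl al Lam t) ζ')‖ ≤
          (b - a) * (Cc * Real.exp (-(Vd δ W T C cl al (fun i => ζ i - ζ' i)) / 12)) +
            T ^ κ / τ := by
  obtain ⟨C₁, hC₁, hpr⟩ := pr_sum
  obtain ⟨δa, hδa0, hδa1, hsmall⟩ := par_small (420 * (k : ℝ) ^ 2 * (k + 1) * C₁ + 5) 1 one_pos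
  obtain ⟨δb, hδb0, hδb1, hlen⟩ := par_len (κ / 4) (by positivity)
  refine ⟨min δa δb, Real.exp (16 * (k : ℝ) ^ 4 * (k + 1) / 10000 + 1), lt_min hδa0 hδb0,
    (min_le_left _ _).trans hδa1, Real.exp_pos _, fun δ hδ hδ1 => ?_⟩
  have hk0 : (0 : ℝ) ≤ k := Nat.cast_nonneg k
  obtain ⟨hd, hds⟩ := hsmall δ hδ (hδ1.trans (min_le_left _ _))
  have hlen' := hlen δ hδ (hδ1.trans (min_le_right _ _))
  have hkk : (0 : ℝ) ≤ k * (k + 1) := by positivity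
  obtain ⟨T1, hT1, hcnt⟩ := par_cnt (κ / 4) (by positivity) δ hδ (1 + k * (k + 1)) (by linarith)
  obtain ⟨T2, hT2, hfin⟩ := par_fin 2 (κ / 2) κ (by norm_num) (by linarith)
  refine ⟨max T1 T2, hT1.trans (le_max_left _ _),
    fun W T hW hT C cl al Lam τ hCc hCl hτ hNR ζ ζ' hζ hζ' a b hab => ?_⟩
  have hTT1 : T1 ≤ T := (le_max_left _ _).trans hT
  have hTT2 : T2 ≤ T := (le_max_right _ _).trans hT
  have hT1' : 1 < T := by linarith
  have hT0 : 0 < T := by linarith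
  have hsub : ∀ i, |ζ i - ζ' i| ≤ 2 := by
    intro i
    refine (abs_sub _ _).trans ?_
    have h1 := hζ i
    have h2 := hζ' i
    linarith
  -- the representations of the blocks
  have hblk : ∀ j, ∃ m : ℂ, RepW (LS C (Pr δ T j)) ((xs δ T j) ^ (2 * dd δ j))
      ((1 + (k * (k + 1)) * xs δ T j) ^ (2 * dd δ j)) m
      (fun z => ex (dd δ j) (((TH (LS C (Pr δ T j)) (ud W T cl al ζ) z : ℝ) : ℂ) * I) *
        (starRingEnd ℂ) (ex (dd δ j) (((TH (LS C (Pr δ T j)) (ud W T cl al ζ') z : ℝ) : ℂ) * I))) := by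
    intro j
    exact repw_block (fun q hq => (mem_LS.1 hq).1) (fun q hq => (pr_mem (lmean_lab hq)).2.2.2)
      (lmean_xs hδ hT1' j) _ _ (lmean_sumu hW hδ hT1' cl al hCc ζ hζ j)
      (lmean_sumu hW hδ hT1' cl al hCc ζ' hζ' j) _
  choose m hm using hblk
  have hrep := repw_prod (J := Finset.range (JJ T)) (S := fun j => LS C (Pr δ T j))
    (fun i _ j _ hij => LS_disj (pr_disj hδ hT1' hij)) (fun j _ => hm j)
  -- length and number of the coefficients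
  have hH2 : ∏ j ∈ Finset.range (JJ T), (xs δ T j) ^ (2 * dd δ j) ≤ T ^ (κ / 4) :=
    hlen' T hT1' (JJ T)
  have hH1 : 1 ≤ ∏ j ∈ Finset.range (JJ T), (xs δ T j) ^ (2 * dd δ j) := by
    refine Finset.prod_induction _ (fun x => (1 : ℝ) ≤ x) (fun x y hx hy => ?_) le_rfl
      (fun j _ => one_le_pow₀ (lmean_xs hδ hT1' j))
    nlinarith
  have hH3 : ∏ j ∈ Finset.range (JJ T), (xs δ T j) ^ (2 * dd δ j) ≤ T ^ κ :=
    hH2.trans (Real.rpow_le_rpow_of_exponent_le hT1'.le (by linarith))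
  have hB : ∏ j ∈ Finset.range (JJ T), (1 + (k * (k + 1)) * xs δ T j) ^ (2 * dd δ j) ≤
      T ^ (κ / 4) * T ^ (κ / 4) := by
    calc ∏ j ∈ Finset.range (JJ T), (1 + (k * (k + 1)) * xs δ T j) ^ (2 * dd δ j)
        ≤ ∏ j ∈ Finset.range (JJ T), ((1 + k * (k + 1) : ℝ) ^ (2 * dd δ j) *
            (xs δ T j) ^ (2 * dd δ j)) := by
          refine Finset.prod_le_prod (fun j _ => ?_) (fun j _ => ?_)
          · have := lmean_xs hδ hT1' j
            positivity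
          · have h1 := lmean_xs hδ hT1' j
            rw [← mul_pow]
            refine pow_le_pow_left₀ (by positivity) ?_ _
            nlinarith
      _ = (∏ j ∈ Finset.range (JJ T), (1 + k * (k + 1) : ℝ) ^ (2 * dd δ j)) *
          ∏ j ∈ Finset.range (JJ T), (xs δ T j) ^ (2 * dd δ j) := Finset.prod_mul_distrib
      _ ≤ T ^ (κ / 4) * T ^ (κ / 4) := by
          refine mul_le_mul (hcnt T hTT1) hH2 (zero_le_one.trans hH1) ?_
          exact Real.rpow_nonneg hT0.le _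
  have hPP : ∀ p ∈ (Finset.range (JJ T)).biUnion (Pr δ T), p.Prime := by
    intro p hp
    rw [Finset.mem_biUnion] at hp
    obtain ⟨j, -, hp⟩ := hp
    exact (pr_mem hp).1
  have hSS : (Finset.range (JJ T)).biUnion (fun j => LS C (Pr δ T j)) ⊆
      LS C ((Finset.range (JJ T)).biUnion (Pr δ T)) := by
    intro q hq
    rw [Finset.mem_biUnion] at hq
    obtain ⟨j, hj, hq⟩ := hq
    obtain ⟨h1, h2, h3⟩ := mem_LS.1 hq
    exact mem_LS.2 ⟨h1, h2, Finset.mem_biUnion.2 ⟨j, hj, h3⟩⟩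
  have havg := avg_l hSS hPP hrep hτ (NRh_mono hNR hH3) a b
  have herr : 2 / τ * (∏ j ∈ Finset.range (JJ T), (1 + (k * (k + 1)) * xs δ T j) ^ (2 * dd δ j)) ≤
      T ^ κ / τ := by
    have h1 : T ^ (κ / 4) * T ^ (κ / 4) = T ^ (κ / 2) := by
      rw [← Real.rpow_add hT0]
      congr 1
      ring
    have h2 := hfin T hTT2
    rw [h1] at hB
    rw [div_mul_eq_mul_div]
    refine div_le_div_of_nonneg_right ?_ hτ.le
    linarith
  -- the integrand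
  have hint : (fun t => Gd δ W T (pt cl al Lam t) ζ * (starRingEnd ℂ) (Gd δ W T (pt cl al Lam t) ζ')) =
      fun t => ∏ j ∈ Finset.range (JJ T),
        (ex (dd δ j) (((TH (LS C (Pr δ T j)) (ud W T cl al ζ) (zc Lam t) : ℝ) : ℂ) * I) *
        (starRingEnd ℂ) (ex (dd δ j) (((TH (LS C (Pr δ T j)) (ud W T cl al ζ') (zc Lam t) : ℝ) : ℂ) *
          I))) := by
    funext t
    unfold Gd
    rw [map_prod, ← Finset.prod_mul_distrib]
    refine Finset.prod_congr rfl fun j _ => ?_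
    rw [thd_eq δ W T hCl, thd_eq δ W T hCl]
  rw [hint]
  -- the mean
  have hCC : (0 : ℝ) ≤ (k + 1) * C₁ := by positivity
  have hlab : ∀ j, ∑ q ∈ LS C (Pr δ T j), (1 / (labp q : ℝ)) ≤ (k + 1) * C₁ := by
    intro j
    refine (lmean_sum hCc (fun p => 1 / (p : ℝ)) (fun p _ => by positivity)).trans ?_
    exact mul_le_mul_of_nonneg_left (hpr δ T hδ hT1' j) (by positivity)
  have hV : ∀ j, ∑ q ∈ LS C (Pr δ T j), ‖ud W T cl al ζ q - ud W T cl al ζ' q‖ ^ 2 ≤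
      4 * (k : ℝ) ^ 2 * ((k + 1) * C₁) := by
    intro j
    calc ∑ q ∈ LS C (Pr δ T j), ‖ud W T cl al ζ q - ud W T cl al ζ' q‖ ^ 2
        ≤ ∑ q ∈ LS C (Pr δ T j), (2 * k) ^ 2 * (1 / (labp q : ℝ)) := by
          refine Finset.sum_le_sum fun q hq => ?_
          rw [ud_sub]
          exact lmean_sq hW hT1' cl al _ (by norm_num) hsub (pr_mem (lmean_lab hq)).1.one_lt.le
      _ = (2 * k) ^ 2 * ∑ q ∈ LS C (Pr δ T j), (1 / (labp q : ℝ)) := by rw [Finset.mul_sum]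
      _ ≤ (2 * k) ^ 2 * ((k + 1) * C₁) := mul_le_mul_of_nonneg_left (hlab j) (by positivity)
      _ = 4 * (k : ℝ) ^ 2 * ((k + 1) * C₁) := by ring
  have hUV : ∀ j, ∑ q ∈ LS C (Pr δ T j), (‖ud W T cl al ζ q‖ ^ 2 + ‖ud W T cl al ζ' q‖ ^ 2) ≤
      2 * (k : ℝ) ^ 2 * ((k + 1) * C₁) := by
    intro j
    calc ∑ q ∈ LS C (Pr δ T j), (‖ud W T cl al ζ q‖ ^ 2 + ‖ud W T cl al ζ' q‖ ^ 2)
        ≤ ∑ q ∈ LS C (Pr δ T j), (2 * (k : ℝ) ^ 2) * (1 / (labp q : ℝ)) := by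
          refine Finset.sum_le_sum fun q hq => ?_
          have h1 := lmean_sq hW hT1' cl al ζ zero_le_one hζ (pr_mem (lmean_lab hq)).1.one_lt.le
          have h2 := lmean_sq hW hT1' cl al ζ' zero_le_one hζ' (pr_mem (lmean_lab hq)).1.one_lt.le
          rw [one_mul] at h1 h2
          linarith
      _ = (2 * (k : ℝ) ^ 2) * ∑ q ∈ LS C (Pr δ T j), (1 / (labp q : ℝ)) := by rw [Finset.mul_sum]
      _ ≤ (2 * (k : ℝ) ^ 2) * ((k + 1) * C₁) := mul_le_mul_of_nonneg_left (hlab j) (by positivity)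
  have hmj : ∀ j, ‖m j‖ ≤ Real.exp (-(∑ q ∈ LS C (Pr δ T j),
      ‖ud W T cl al ζ q - ud W T cl al ζ' q‖ ^ 2) / 12 +
      ∑ q ∈ LS C (Pr δ T j), ‖ud W T cl al ζ q - ud W T cl al ζ' q‖ ^ 4 +
        Real.exp (-(dd δ j : ℝ) / 2)) := by
    intro j
    have hkC : 0 ≤ (k : ℝ) ^ 2 * ((k + 1) * C₁) := by positivity
    have h1 : 210 * (∑ q ∈ LS C (Pr δ T j), (‖ud W T cl al ζ q‖ ^ 2 + ‖ud W T cl al ζ' q‖ ^ 2)) + 5 ≤
        (dd δ j : ℝ) := by
      have h2 := hUV j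
      have h3 := hd j
      linarith
    obtain ⟨H', hm'⟩ := repW_rep (hm j)
    refine (model_le _ _ _ hm' h1).trans (lmean_exp ?_ ?_ rfl)
    · exact Finset.sum_nonneg fun p _ => by positivity
    · have h2 := hV j
      have h3 := hd j
      linarith
  have hQ : ∑ j ∈ Finset.range (JJ T), ∑ q ∈ LS C (Pr δ T j),
      ‖ud W T cl al ζ q - ud W T cl al ζ' q‖ ^ 4 ≤ 16 * (k : ℝ) ^ 4 * (k + 1) / 10000 := by
    have hdis : Set.PairwiseDisjoint (↑(Finset.range (JJ T)) : Set ℕ) (Pr δ T) :=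
      fun i _ j _ hij => pr_disj hδ hT1' hij
    calc ∑ j ∈ Finset.range (JJ T), ∑ q ∈ LS C (Pr δ T j), ‖ud W T cl al ζ q - ud W T cl al ζ' q‖ ^ 4
        ≤ ∑ j ∈ Finset.range (JJ T), (16 * (k : ℝ) ^ 4 * (k + 1)) *
            ∑ p ∈ Pr δ T j, (1 / (p : ℝ) ^ 2) := by
          refine Finset.sum_le_sum fun j _ => ?_
          calc ∑ q ∈ LS C (Pr δ T j), ‖ud W T cl al ζ q - ud W T cl al ζ' q‖ ^ 4
              ≤ ∑ q ∈ LS C (Pr δ T j), (16 * (k : ℝ) ^ 4) * (1 / (labp q : ℝ) ^ 2) := by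
                refine Finset.sum_le_sum fun q hq => ?_
                have h1 := lmean_sq hW hT1' cl al (fun i => ζ i - ζ' i) (by norm_num : (0 : ℝ) ≤ 2)
                  hsub (pr_mem (lmean_lab hq)).1.one_lt.le
                rw [ud_sub]
                calc ‖ud W T cl al (fun i => ζ i - ζ' i) q‖ ^ 4
                    = (‖ud W T cl al (fun i => ζ i - ζ' i) q‖ ^ 2) ^ 2 := by ring
                  _ ≤ ((2 * k) ^ 2 * (1 / (labp q : ℝ))) ^ 2 := pow_le_pow_left₀ (by positivity) h1 2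
                  _ = (16 * (k : ℝ) ^ 4) * (1 / (labp q : ℝ) ^ 2) := by
                      rw [mul_pow, div_pow, one_pow]
                      ring
            _ = (16 * (k : ℝ) ^ 4) * ∑ q ∈ LS C (Pr δ T j), (1 / (labp q : ℝ) ^ 2) := by
                rw [Finset.mul_sum]
            _ ≤ (16 * (k : ℝ) ^ 4) * ((k + 1) * ∑ p ∈ Pr δ T j, (1 / (p : ℝ) ^ 2)) :=
                mul_le_mul_of_nonneg_left
                  (lmean_sum hCc (fun p => 1 / (p : ℝ) ^ 2) (fun p _ => by positivity)) (by positivity)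
            _ = (16 * (k : ℝ) ^ 4 * (k + 1)) * ∑ p ∈ Pr δ T j, (1 / (p : ℝ) ^ 2) := by ring
      _ = (16 * (k : ℝ) ^ 4 * (k + 1)) *
            ∑ p ∈ (Finset.range (JJ T)).biUnion (Pr δ T), (1 / (p : ℝ) ^ 2) := by
          rw [Finset.sum_biUnion hdis, Finset.mul_sum]
      _ ≤ (16 * (k : ℝ) ^ 4 * (k + 1)) * (1 / 10000) := by
          refine mul_le_mul_of_nonneg_left (sq_sum _ fun p hp => ?_) (by positivity)
          rw [Finset.mem_biUnion] at hp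
          obtain ⟨j, -, hp⟩ := hp
          exact (pr_mem hp).2.1
      _ = 16 * (k : ℝ) ^ 4 * (k + 1) / 10000 := by ring
  have hVV : ∑ j ∈ Finset.range (JJ T), ∑ q ∈ LS C (Pr δ T j),
      ‖ud W T cl al ζ q - ud W T cl al ζ' q‖ ^ 2 = Vd δ W T C cl al (fun i => ζ i - ζ' i) := by
    unfold Vd
    refine Finset.sum_congr rfl fun j _ => Finset.sum_congr rfl fun p _ => ?_
    rw [ud_sub]
  have hprod : ‖∏ j ∈ Finset.range (JJ T), m j‖ ≤ Real.exp (16 * (k : ℝ) ^ 4 * (k + 1) / 10000 + 1) *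
      Real.exp (-(Vd δ W T C cl al (fun i => ζ i - ζ' i)) / 12) := by
    rw [norm_prod, ← Real.exp_add]
    refine (Finset.prod_le_prod (fun j _ => norm_nonneg _) (fun j _ => hmj j)).trans ?_
    rw [← Real.exp_sum, Real.exp_le_exp, Finset.sum_add_distrib, Finset.sum_add_distrib,
      ← Finset.sum_div, Finset.sum_neg_distrib, hVV]
    have h1 := hds (JJ T)
    linarith
  have hba : 0 ≤ b - a := sub_nonneg.2 hab
  calc ‖∫ t in a..b, ∏ j ∈ Finset.range (JJ T),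
        (ex (dd δ j) (((TH (LS C (Pr δ T j)) (ud W T cl al ζ) (zc Lam t) : ℝ) : ℂ) * I) *
        (starRingEnd ℂ) (ex (dd δ j) (((TH (LS C (Pr δ T j)) (ud W T cl al ζ') (zc Lam t) : ℝ) : ℂ) *
          I)))‖
      ≤ ‖((b - a : ℝ) : ℂ) * ∏ j ∈ Finset.range (JJ T), m j‖ + T ^ κ / τ := by
        have h1 := norm_le_norm_add_norm_sub' (∫ t in a..b, ∏ j ∈ Finset.range (JJ T),
          (ex (dd δ j) (((TH (LS C (Pr δ T j)) (ud W T cl al ζ) (zc Lam t) : ℝ) : ℂ) * I) *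
          (starRingEnd ℂ) (ex (dd δ j) (((TH (LS C (Pr δ T j)) (ud W T cl al ζ') (zc Lam t) : ℝ) : ℂ) *
            I))))
          (((b - a : ℝ) : ℂ) * ∏ j ∈ Finset.range (JJ T), m j)
        refine h1.trans (add_le_add le_rfl (havg.trans herr))
    _ ≤ (b - a) * (Real.exp (16 * (k : ℝ) ^ 4 * (k + 1) / 10000 + 1) *
          Real.exp (-(Vd δ W T C cl al (fun i => ζ i - ζ' i)) / 12)) + T ^ κ / τ := by
        rw [norm_mul, Complex.norm_real, Real.norm_of_nonneg hba]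
        exact add_le_add (mul_le_mul_of_nonneg_left hprod hba) le_rfl

end Pool.Agent.Lib.MP_ec260d_ntD.LG
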