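import Mathlib
import Pool.Agent.Lib.MP_ec260d_ntD.L.LCore
import Pool.Agent.Lib.MP_ec260d_ntD.L.LMean

/-!
# Interface L: local density bound for positions moving with different slopes
-/

namespace Pool.Agent.Lib.MP_ec260d_ntD

open Complex Set Filter Topology MeasureTheory
open Pool.Agent.Lib.MP_ec260d_ntB

/-- non-resonance (up to height `H`, with the bound `τ`) of the slopes `Λ` of the classes which occur in `cl` -/
def NR (k : ℕ) (cl : Fin (k + 1) → Fin (k + 1)) (Λ : Fin (k + 1) → ℝ) (H τ : ℝ) : Prop :=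
  ∀ A B : Fin (k + 1) → ℕ, (∀ c, 1 ≤ A c ∧ 1 ≤ B c ∧ (A c : ℝ) ≤ H ∧ (B c : ℝ) ≤ H) →
    (∀ c, (∀ i, cl i ≠ c) → A c = 1 ∧ B c = 1) → A ≠ B →
      τ ≤ |∑ c, (Real.log (A c) - Real.log (B c)) * Λ c|

/-- the variance of a combination of increments between the positions `al i + Λ (cl i) t` -/
noncomputable def VFD (δ W T : ℝ) {k : ℕ} (cl : Fin (k + 1) → Fin (k + 1)) (al : Fin (k + 1) → ℝ)
    (ζ : Fin k → ℝ) : ℝ :=
  ∑ j ∈ Finset.range (JJ T), ∑ p ∈ Pr δ T j, (p : ℝ) ^ (-(1 + 2 * W / Real.log T)) *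
    ∑ c : Fin (k + 1), ‖∑ i : Fin k, ((ζ i : ℝ) : ℂ) * ((if cl i.succ = c then zt (al i.succ) p else 0) -
      (if cl i.castSucc = c then zt (al i.castSucc) p else 0))‖ ^ 2

private theorem il_nr {k : ℕ} {cl : Fin (k + 1) → Fin (k + 1)} {Λ : Fin (k + 1) → ℝ} {H τ : ℝ}
    (hH : 1 ≤ H) (h : NR k cl Λ H τ) {Lam : ℕ → ℝ} (hLam : ∀ c : Fin (k + 1), Lam c = Λ c) :
    LG.NRh Lam ((Finset.univ.image cl).image (fun c : Fin (k + 1) => (c : ℕ))) H τ := by
  classical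
  intro A B hAB hne
  have hmem : ∀ i, ((cl i : Fin (k + 1)) : ℕ) ∈ (Finset.univ.image cl).image (fun c : Fin (k + 1) => (c : ℕ)) := by
    intro i
    exact Finset.mem_image_of_mem _ (Finset.mem_image_of_mem _ (Finset.mem_univ i))
  have h1 := h (fun c => if c ∈ Finset.univ.image cl then A c else 1)
    (fun c => if c ∈ Finset.univ.image cl then B c else 1)
    (by
      intro c
      by_cases hc : c ∈ Finset.univ.image cl
      · simp only [hc, if_true]
        exact hAB c (Finset.mem_image_of_mem _ hc)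
      · simp only [hc, if_false, Nat.cast_one]
        exact ⟨le_rfl, le_rfl, hH, hH⟩)
    (by
      intro c hc
      have hc1 : c ∉ Finset.univ.image cl := by
        intro h2
        rw [Finset.mem_image] at h2
        obtain ⟨i, -, h3⟩ := h2
        exact hc i h3
      exact ⟨if_neg hc1, if_neg hc1⟩)
    (by
      intro h2
      obtain ⟨c, hc, hne⟩ := hne
      rw [Finset.mem_image] at hc
      obtain ⟨c', hc', rfl⟩ := hc
      have h3 := congrFun h2 c'
      simp only [hc', if_true] at h3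
      exact hne h3)
  refine h1.trans (le_of_eq ?_)
  congr 1
  rw [Finset.sum_image (fun x _ y _ hxy => Fin.ext hxy)]
  have h4 : ∀ c ∈ (Finset.univ : Finset (Fin (k + 1))), c ∉ Finset.univ.image cl →
      (Real.log ((if c ∈ Finset.univ.image cl then A c else 1 : ℕ) : ℝ) -
        Real.log ((if c ∈ Finset.univ.image cl then B c else 1 : ℕ) : ℝ)) * Λ c = 0 := by
    intro c _ hc
    rw [if_neg hc, if_neg hc, sub_self, zero_mul]
  rw [← Finset.sum_subset (Finset.subset_univ (Finset.univ.image cl)) h4]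
  refine Finset.sum_congr rfl (fun c hc => ?_)
  rw [if_pos hc, if_pos hc, hLam, mul_comm]

private theorem il_vd {δ W T : ℝ} {k : ℕ} (cl : Fin (k + 1) → Fin (k + 1)) (al : Fin (k + 1) → ℝ)
    (ζ : Fin k → ℝ) :
    LG.Vd δ W T ((Finset.univ.image cl).image (fun c : Fin (k + 1) => (c : ℕ))) (fun i => (cl i : ℕ)) al ζ =
      (1 / Real.pi) ^ 2 * VFD δ W T cl al ζ := by
  classical
  unfold LG.Vd VFD
  rw [Finset.mul_sum]
  refine Finset.sum_congr rfl (fun j _ => ?_)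
  rw [LG.sum_LS, Finset.sum_comm, Finset.mul_sum]
  refine Finset.sum_congr rfl (fun p hp => ?_)
  have hp0 : (0 : ℝ) < p := by
    have := (pr_mem hp).1.pos
    exact_mod_cast this
  rw [Finset.sum_image (fun x _ y _ hxy => Fin.ext hxy)]
  have h1 : ∀ c ∈ (Finset.univ : Finset (Fin (k + 1))), c ∉ Finset.univ.image cl →
      ‖∑ i : Fin k, ((ζ i : ℝ) : ℂ) * ((if cl i.succ = c then zt (al i.succ) p else 0) -
        (if cl i.castSucc = c then zt (al i.castSucc) p else 0))‖ ^ 2 = 0 := by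
    intro c _ hc
    have h2 : ∀ i, cl i ≠ c := by
      intro i hi
      exact hc (hi ▸ Finset.mem_image_of_mem _ (Finset.mem_univ i))
    have h3 : ∑ i : Fin k, ((ζ i : ℝ) : ℂ) * ((if cl i.succ = c then zt (al i.succ) p else 0) -
        (if cl i.castSucc = c then zt (al i.castSucc) p else 0)) = 0 := by
      refine Finset.sum_eq_zero (fun i _ => ?_)
      rw [if_neg (h2 _), if_neg (h2 _), sub_self, mul_zero]
    rw [h3, norm_zero]
    norm_num
  rw [← Finset.sum_subset (Finset.subset_univ (Finset.univ.image cl)) h1, ← mul_assoc, Finset.mul_sum]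
  refine Finset.sum_congr rfl (fun c _ => ?_)
  unfold LG.ud
  rw [LG.labc_lab, LG.labp_lab, norm_mul, mul_pow, Complex.norm_real, Real.norm_eq_abs, sq_abs, mul_pow]
  have e2 : ((p : ℝ) ^ (-(1 / 2 + W / Real.log T))) ^ 2 = (p : ℝ) ^ (-(1 + 2 * W / Real.log T)) := by
    rw [← Real.rpow_natCast, ← Real.rpow_mul hp0.le]
    congr 1
    push_cast
    ring
  rw [e2]
  congr 3
  refine Finset.sum_congr rfl (fun i _ => ?_)
  simp only [Fin.val_inj]

theorem lball (k : ℕ) (κ : ℝ) (hκ : 0 < κ) : ∃ δ₁ : ℝ, 0 < δ₁ ∧ ∀ δ : ℝ, 0 < δ → δ ≤ δ₁ → ∀ W : ℝ, 1 ≤ W →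
    ∀ c₀ : ℝ, 0 < c₀ → ∃ C₀ T₀ : ℝ, 0 < C₀ ∧ 2 ≤ T₀ ∧ ∀ T : ℝ, T₀ ≤ T →
      ∀ (cl : Fin (k + 1) → Fin (k + 1)) (Λ al : Fin (k + 1) → ℝ) (τ : ℝ), 0 < τ → τ ≤ 1 →
        NR k cl Λ (T ^ κ) τ → ∀ L : Fin k → ℝ, (∀ i, 0 < L i) →
        (∀ ζ : Fin k → ℝ, c₀ * ∑ i, ζ i ^ 2 * L i ≤ VFD δ W T cl al ζ) →
        ∀ a b : ℝ, a ≤ b → ∀ (y : Fin k → ℝ) (K : ℝ), 1 ≤ K →
          (volume {t : ℝ | t ∈ Icc a b ∧
            (∀ i : Fin k, |(∑ j ∈ Finset.range (JJ T), (YB δ W T j (al i.succ + Λ (cl i.succ) * t) -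
              YB δ W T j (al i.castSucc + Λ (cl i.castSucc) * t))) - y i| ≤ K) ∧
            ∀ j ∈ Finset.range (JJ T), ∀ i : Fin (k + 1),
              |YB δ W T j (al i + Λ (cl i) * t)| ≤ dd δ j / (100 * ((k : ℝ) + 1))}).toReal ≤
          C₀ * K ^ k * (∏ i : Fin k, (Real.sqrt (L i))⁻¹) * (b - a) + T ^ κ / τ := by
  classical
  obtain ⟨δm, Cc, hδm, hδm1, hC, hm⟩ := LG.mean_l k (κ / 2) (by positivity)
  set A : ℝ := (11 / 12 : ℝ) ^ k / 2 with hA
  have hA0 : 0 < A := by positivity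
  obtain ⟨δp, hδp, hδp1, hp⟩ := par_small 0 (A / 2 ^ (k + 1)) (by positivity)
  refine ⟨min δm δp, lt_min hδm hδp, fun δ hδ hδ1 W hW c₀ hc₀ => ?_⟩
  obtain ⟨T1, hT1, hm'⟩ := hm δ hδ (hδ1.trans (min_le_left _ _))
  obtain ⟨T3, hT3, hf⟩ := par_fin ((A ^ 2)⁻¹ * 4 ^ k) (κ / 2) κ (by positivity) (by linarith)
  have hπ := Real.pi_pos
  set c : ℝ := (1 / Real.pi) ^ 2 * c₀ with hc
  have hc0 : 0 < c := by positivity
  refine ⟨(A ^ 2)⁻¹ * Cc * 2 ^ k * (Real.sqrt (12 * Real.pi / c)) ^ k, max T1 T3,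
    by positivity, hT1.trans (le_max_left _ _), ?_⟩
  intro T hTT cl Λ al τ hτ hτ1 hNR L hL hVF a b hab y K hK
  have hTT1 : T1 ≤ T := (le_max_left _ _).trans hTT
  have hTT3 : T3 ≤ T := (le_max_right _ _).trans hTT
  have hTone : 1 ≤ T := by linarith
  set Lam : ℕ → ℝ := fun i => if h : i < k + 1 then Λ ⟨i, h⟩ else 0 with hLam
  have hLam' : ∀ i : Fin (k + 1), Lam i = Λ i := by
    intro i
    simp only [hLam, i.2, dif_pos]
  set C : Finset ℕ := (Finset.univ.image cl).image (fun c : Fin (k + 1) => (c : ℕ)) with hCd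
  set cl' : Fin (k + 1) → ℕ := fun i => (cl i : ℕ) with hcl'
  have hCcard : C.card ≤ k + 1 := by
    refine Finset.card_image_le.trans (Finset.card_image_le.trans ?_)
    rw [Finset.card_univ, Fintype.card_fin]
  have hCmem : ∀ i, cl' i ∈ C := by
    intro i
    exact Finset.mem_image_of_mem _ (Finset.mem_image_of_mem _ (Finset.mem_univ i))
  have hNRh : LG.NRh Lam C (T ^ (κ / 2)) τ := by
    refine LG.NRh_mono (il_nr (Real.one_le_rpow hTone hκ.le) hNR hLam') ?_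
    exact Real.rpow_le_rpow_of_exponent_le hTone (by linarith)
  have hpt : ∀ t i, LG.pt cl' al Lam t i = al i + Λ (cl i) * t := by
    intro t i
    unfold LG.pt
    rw [hcl']
    simp only
    rw [hLam']
  have hvT : ∀ ζ : Fin k → ℝ, c * ∑ i : Fin k, ζ i ^ 2 * L i ≤ LG.Vd δ W T C cl' al ζ := by
    intro ζ
    rw [hCd, hcl', il_vd, hc, mul_assoc]
    exact mul_le_mul_of_nonneg_left (hVF ζ) (by positivity)
  have hsum : 2 ^ (k + 1) * ∑ j ∈ Finset.range (JJ T), Real.exp (-(dd δ j : ℝ)) ≤ A := by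
    have h1 := (hp δ hδ (hδ1.trans (min_le_right _ _))).2 (JJ T)
    have h2 : ∑ j ∈ Finset.range (JJ T), Real.exp (-(dd δ j : ℝ)) ≤
        ∑ j ∈ Finset.range (JJ T), Real.exp (-(dd δ j : ℝ) / 2) := by
      refine Finset.sum_le_sum (fun j _ => ?_)
      rw [Real.exp_le_exp]
      have : (0 : ℝ) ≤ dd δ j := Nat.cast_nonneg _
      linarith
    have h3 : (0 : ℝ) < 2 ^ (k + 1) := by positivity
    have h4 := (h2.trans h1)
    rw [le_div_iff₀ h3] at h4
    linarith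
  have hcore := LG.core_l hc0 hL (δ := δ) (W := W) (T := T) (al := al) y hK hab hC
    (fun ζ ζ' hζ hζ' => hm' W T (by linarith) hTT1 C cl' al Lam τ hCcard hCmem hτ hNRh ζ ζ' hζ hζ' a b
      hab) hvT hsum
    (S := {t : ℝ | t ∈ Icc a b ∧
            (∀ i : Fin k, |(∑ j ∈ Finset.range (JJ T), (YB δ W T j (al i.succ + Λ (cl i.succ) * t) -
              YB δ W T j (al i.castSucc + Λ (cl i.castSucc) * t))) - y i| ≤ K) ∧
            ∀ j ∈ Finset.range (JJ T), ∀ i : Fin (k + 1),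
              |YB δ W T j (al i + Λ (cl i) * t)| ≤ dd δ j / (100 * ((k : ℝ) + 1))})
    (fun t ht => ht.1)
    (fun t ht i => by
      rw [hpt, hpt]
      exact ht.2.1 i)
    (fun t ht j hj i => by
      rw [hpt]
      exact ht.2.2 j hj i)
  refine hcore.trans ?_
  have h5 := hf T hTT3
  rw [← hA, mul_add]
  refine add_le_add (le_of_eq (by ring)) ?_
  rw [← mul_assoc, ← mul_div_assoc]
  exact div_le_div_of_nonneg_right h5 hτ.le

end Pool.Agent.Lib.MP_ec260d_ntD
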